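import Mathlib

/-! Legendre symbol sums over half a period, and determinants of square roots of a prime. -/

set_option autoImplicit false

open Finset Matrix Polynomial

namespace Q263.LD

variable {p : ℕ} [Fact p.Prime]

/-- the point `k + 1` -/
def pt (p : ℕ) {n : ℕ} (k : Fin n) : ZMod p := ((k : ℕ) + 1 : ℕ)

lemma fold {M : Type*} [AddCommMonoid M] {n : ℕ} (hp : p = 2 * n + 1) (f : ZMod p → M) :
    ∑ l, f l = f 0 + ∑ k : Fin n, (f (pt p k) + f (-pt p k)) := by
  have h1 : ∑ i : ZMod p, f i = ∑ i ∈ range p, f (i : ZMod p) := by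
    symm
    apply Finset.sum_bij (fun (i : ℕ) _ => (i : ZMod p))
    · intro a _; simp
    · intro a ha b hb hab
      rw [Finset.mem_range] at ha hb
      have := congrArg ZMod.val hab
      rwa [ZMod.val_natCast_of_lt ha, ZMod.val_natCast_of_lt hb] at this
    · intro b _
      exact ⟨b.val, by simpa using ZMod.val_lt b, by simp⟩
    · intro a _; rfl
  have h2 : ∑ i ∈ range p, f (i : ZMod p) = ∑ i ∈ range (n + n + 1), f (i : ZMod p) := by
    rw [show n + n + 1 = p by omega]
  rw [h1, h2, Finset.sum_range_succ', Finset.sum_range_add, Finset.sum_add_distrib]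
  rw [add_comm, Nat.cast_zero]
  congr 1
  congr 1
  · rw [Finset.sum_range]
    rfl
  · rw [← Finset.sum_range_reflect, Finset.sum_range]
    refine Finset.sum_congr rfl fun k _ => ?_
    congr 1
    rw [pt, eq_neg_iff_add_eq_zero]
    have h3 : n + (n - 1 - (k : ℕ)) + 1 + ((k : ℕ) + 1) = p := by
      have := k.2
      omega
    rw [← Nat.cast_add, h3]
    exact ZMod.natCast_self p

lemma pt_ne_zero {n : ℕ} (hp : p = 2 * n + 1) (k : Fin n) : pt p k ≠ 0 := by
  rw [pt, Ne, ZMod.natCast_eq_zero_iff]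
  intro h
  have := Nat.le_of_dvd (by omega) h
  have := k.2
  omega

omit [Fact p.Prime] in
lemma pt_inj {n : ℕ} (hp : p = 2 * n + 1) {j k : Fin n} (h : pt p j = pt p k) : j = k := by
  rw [pt, pt, ZMod.natCast_eq_natCast_iff'] at h
  have h1 := j.2
  have h2 := k.2
  rw [Nat.mod_eq_of_lt (by omega), Nat.mod_eq_of_lt (by omega)] at h
  apply Fin.ext
  omega

lemma pt_ne_neg {n : ℕ} (hp : p = 2 * n + 1) (j k : Fin n) : pt p j ≠ - pt p k := by
  intro h
  rw [eq_neg_iff_add_eq_zero, pt, pt, ← Nat.cast_add, ZMod.natCast_eq_zero_iff] at h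
  have := Nat.le_of_dvd (by omega) h
  have := j.2
  have := k.2
  omega

lemma sum_chi (h2 : p ≠ 2) : ∑ l : ZMod p, quadraticChar (ZMod p) l = 0 :=
  quadraticChar_sum_zero (by rwa [ZMod.ringChar_zmod_n])

lemma sum_chi_add (h2 : p ≠ 2) (a : ZMod p) : ∑ l : ZMod p, quadraticChar (ZMod p) (a + l) = 0 := by
  rw [← sum_chi h2]
  exact Fintype.sum_equiv (Equiv.addLeft a) _ _ fun x => rfl

lemma sum_corr (h2 : p ≠ 2) (a b : ZMod p) :
    ∑ l : ZMod p, quadraticChar (ZMod p) (a + l) * quadraticChar (ZMod p) (b + l) = if a = b then (p : ℤ) - 1 else -1 := by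
  split_ifs with h
  · subst h
    have h1 : ∑ l : ZMod p, quadraticChar (ZMod p) (a + l) * quadraticChar (ZMod p) (a + l) = ∑ l : ZMod p, quadraticChar (ZMod p) l * quadraticChar (ZMod p) l :=
      Fintype.sum_equiv (Equiv.addLeft a) _ _ fun x => rfl
    rw [h1]
    have h3 : ∀ l : ZMod p, quadraticChar (ZMod p) l * quadraticChar (ZMod p) l = 1 - if l = 0 then 1 else 0 := by
      intro l
      split_ifs with h
      · rw [h]; simp
      · have := quadraticChar_sq_one h
        rw [pow_two] at this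
        rw [this]; ring
    rw [Finset.sum_congr rfl fun l _ => h3 l, Finset.sum_sub_distrib]
    simp [ZMod.card]
  · set c := b - a with hc
    have hc0 : c ≠ 0 := sub_ne_zero.mpr (Ne.symm h)
    have h1 : ∑ l : ZMod p, quadraticChar (ZMod p) (a + l) * quadraticChar (ZMod p) (b + l) = ∑ l : ZMod p, quadraticChar (ZMod p) l * quadraticChar (ZMod p) (l + c) := by
      refine Fintype.sum_equiv (Equiv.addLeft a) _ _ fun x => ?_
      simp only [Equiv.coe_addLeft, hc]
      congr 2
      ring
    have h3 : ∀ l : ZMod p, quadraticChar (ZMod p) l * quadraticChar (ZMod p) (l + c) = (if l = 0 then 0 else quadraticChar (ZMod p) (1 + c * l⁻¹)) := by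
      intro l
      split_ifs with h
      · rw [h]; simp
      · have h4 : l + c = l * (1 + c * l⁻¹) := by field_simp
        rw [h4, map_mul, ← mul_assoc]
        have := quadraticChar_sq_one h
        rw [pow_two] at this
        rw [this, one_mul]
    have h4 : ∑ l : ZMod p, (if l = 0 then 0 else quadraticChar (ZMod p) (1 + c * l⁻¹)) =
        ∑ m : ZMod p, (if m = 0 then 0 else quadraticChar (ZMod p) (1 + c * m)) := by
      refine Fintype.sum_equiv (Equiv.inv (ZMod p)) _ _ fun x => ?_
      simp only [Equiv.inv_apply, inv_eq_zero]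
    have h5 : ∀ m : ZMod p, (if m = 0 then 0 else quadraticChar (ZMod p) (1 + c * m)) =
        quadraticChar (ZMod p) (1 + c * m) - if m = 0 then 1 else 0 := by
      intro m
      split_ifs with h
      · rw [h]; simp
      · ring
    have h6 : ∑ m : ZMod p, quadraticChar (ZMod p) (1 + c * m) = 0 := by
      rw [← sum_chi_add h2 1]
      exact Fintype.sum_equiv (Equiv.mulLeft₀ c hc0) _ _ fun x => rfl
    rw [h1, Finset.sum_congr rfl fun l _ => h3 l, h4, Finset.sum_congr rfl fun m _ => h5 m,
      Finset.sum_sub_distrib, h6]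
    simp

/-! ## The determinant of a square root of a prime -/

lemma det_of_sq {m : ℕ} (M : Matrix (Fin (2 * m)) (Fin (2 * m)) ℚ)
    (h : M * M = (p : ℚ) • (1 : Matrix _ _ ℚ)) : M.det = (-(p : ℚ)) ^ m := by
  have hp : p.Prime := Fact.out
  have hirr : Irreducible (X ^ 2 - C (p : ℚ)) := by
    apply X_pow_sub_C_irreducible_of_prime Nat.prime_two
    intro b hb
    have h1 : IsSquare (p : ℚ) := ⟨b, by rw [← hb, pow_two]⟩
    rw [Rat.isSquare_natCast_iff] at h1
    exact hp.prime.not_isSquare h1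
  have hmonic : (X ^ 2 - C (p : ℚ)).Monic := monic_X_pow_sub_C _ two_ne_zero
  have h1 : M.charpoly ∣ (X ^ 2 - C (p : ℚ)) ^ (2 * m) := by
    have h2 : M.charmatrix * (Matrix.scalar (Fin (2 * m)) (X : ℚ[X]) + M.map C) =
        (X ^ 2 - C (p : ℚ)) • (1 : Matrix (Fin (2 * m)) (Fin (2 * m)) ℚ[X]) := by
      have h3 : M.map C * M.map C = (C (p : ℚ)) • (1 : Matrix (Fin (2 * m)) (Fin (2 * m)) ℚ[X]) := by
        rw [← Matrix.map_mul, h]
        ext i j
        simp only [Matrix.map_apply, Matrix.smul_apply, smul_eq_mul, map_mul, Matrix.one_apply]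
        split_ifs <;> simp
      have h4 : M.charmatrix = Matrix.scalar (Fin (2 * m)) (X : ℚ[X]) - M.map C := rfl
      rw [h4, mul_add, sub_mul, sub_mul, h3, ← (Matrix.scalar_commute (X : ℚ[X])
        (fun r' => Commute.all _ _) (M.map C)).eq]
      rw [sub_smul]
      have h5 : Matrix.scalar (Fin (2 * m)) (X : ℚ[X]) * Matrix.scalar (Fin (2 * m)) (X : ℚ[X]) =
          (X ^ 2 : ℚ[X]) • (1 : Matrix (Fin (2 * m)) (Fin (2 * m)) ℚ[X]) := by
        rw [← map_mul, ← pow_two]
        ext i j
        simp [Matrix.scalar_apply, Matrix.diagonal_apply, Matrix.one_apply]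
      rw [h5]
      abel
    have h3 := congrArg Matrix.det h2
    rw [Matrix.det_mul, Matrix.det_smul, Matrix.det_one, mul_one, Fintype.card_fin] at h3
    exact ⟨_, h3.symm⟩
  obtain ⟨k, -, hk⟩ := (dvd_prime_pow hirr.prime _).mp h1
  have h2 : M.charpoly = (X ^ 2 - C (p : ℚ)) ^ k :=
    eq_of_monic_of_associated (Matrix.charpoly_monic M) (hmonic.pow k) hk
  have h3 : 2 * m = k * 2 := by
    have h4 := congrArg natDegree h2
    rw [Matrix.charpoly_natDegree_eq_dim, Fintype.card_fin, natDegree_pow,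
      natDegree_X_pow_sub_C] at h4
    exact h4
  have h4 : k = m := by omega
  rw [Matrix.det_eq_sign_charpoly_coeff, h2, h4, Fintype.card_fin, pow_mul, coeff_zero_eq_eval_zero]
  simp

end Q263.LD
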