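import Mathlib
import Pool.Agent.Q263.LD.Base

/-! The matrix `χ(j+k) + χ(j-k)` for `p ≡ 3 (mod 4)`. -/

set_option autoImplicit false

open Finset Matrix

namespace Q263.LD

section

variable {p : ℕ} [Fact p.Prime] {n : ℕ}

/-- the matrix `χ(j+k) + χ(j-k)` -/
def matC (p n : ℕ) [Fact p.Prime] : Matrix (Fin n) (Fin n) ℤ :=
  Matrix.of fun j k => quadraticChar (ZMod p) (pt p j + pt p k) +
    quadraticChar (ZMod p) (pt p j - pt p k)

variable (hp : p = 2 * n + 1) (hn : n % 2 = 1)

include hp hn in
lemma chi_neg3 (a : ZMod p) : quadraticChar (ZMod p) (-a) = -quadraticChar (ZMod p) a := by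
  have h2 : ringChar (ZMod p) ≠ 2 := by rw [ZMod.ringChar_zmod_n]; omega
  have h1 : quadraticChar (ZMod p) (-1) = -1 := by
    rw [quadraticChar_neg_one h2, ZMod.card, ZMod.χ₄_nat_three_mod_four (by omega)]
  rw [neg_eq_neg_one_mul, map_mul, h1]
  ring

/-- the sum of the first half -/
def Sh (p n : ℕ) [Fact p.Prime] : ℤ := ∑ k : Fin n, quadraticChar (ZMod p) (pt p k)

include hp hn in
/-- row sums -/
lemma C_row (j : Fin n) : ∑ k, matC p n j k = -quadraticChar (ZMod p) (pt p j) := by
  have h2 : p ≠ 2 := by omega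
  have h1 := fold hp (fun l => quadraticChar (ZMod p) (pt p j + l))
  rw [sum_chi_add h2, add_zero] at h1
  simp only [← sub_eq_add_neg] at h1
  simp only [matC, Matrix.of_apply]
  linarith

include hp hn in
/-- weighted column sums -/
lemma C_col (k : Fin n) : ∑ j, quadraticChar (ZMod p) (pt p j) * matC p n j k = -1 := by
  have h2 : p ≠ 2 := by omega
  have h1 := fold hp (fun l => quadraticChar (ZMod p) (0 + l) *
    quadraticChar (ZMod p) (pt p k + l))
  rw [sum_corr h2, if_neg (pt_ne_zero hp k).symm] at h1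
  have h3 : ∀ j : Fin n, quadraticChar (ZMod p) (0 + pt p j) *
      quadraticChar (ZMod p) (pt p k + pt p j) + quadraticChar (ZMod p) (0 + -pt p j) *
      quadraticChar (ZMod p) (pt p k + -pt p j) =
      quadraticChar (ZMod p) (pt p j) * matC p n j k := by
    intro j
    have e1 : pt p k + -pt p j = -(pt p j - pt p k) := by ring
    rw [zero_add, zero_add, e1, chi_neg3 hp hn, chi_neg3 hp hn, add_comm (pt p k)]
    simp only [matC, Matrix.of_apply]
    ring
  rw [Finset.sum_congr rfl fun j _ => h3 j] at h1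
  simp only [add_zero, MulChar.map_zero, zero_mul, zero_add] at h1
  linarith

include hp hn in
/-- the Gram matrix -/
lemma C_gram (k l : Fin n) : ∑ j, matC p n j k * matC p n j l =
    (p : ℤ) * (if k = l then 1 else 0) - 2 := by
  have h2 : p ≠ 2 := by omega
  set F : ZMod p → ℤ := fun j => quadraticChar (ZMod p) (pt p k + j) *
    quadraticChar (ZMod p) (pt p l + j) + quadraticChar (ZMod p) (pt p k + j) *
    -quadraticChar (ZMod p) (pt p l - j) with hF
  have h1 := fold hp F
  have h3 : ∀ j : Fin n, F (pt p j) + F (-pt p j) = matC p n j k * matC p n j l := by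
    intro j
    simp only [hF, matC, Matrix.of_apply]
    have e1 : quadraticChar (ZMod p) (pt p k + -pt p j) =
        -quadraticChar (ZMod p) (pt p j - pt p k) := by
      rw [← chi_neg3 hp hn]; congr 1; ring
    have e2 : quadraticChar (ZMod p) (pt p l + -pt p j) =
        -quadraticChar (ZMod p) (pt p j - pt p l) := by
      rw [← chi_neg3 hp hn]; congr 1; ring
    have e3 : quadraticChar (ZMod p) (pt p l - pt p j) =
        -quadraticChar (ZMod p) (pt p j - pt p l) := by
      rw [← chi_neg3 hp hn]; congr 1; ring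
    rw [e1, e2, e3, sub_neg_eq_add, add_comm (pt p k), add_comm (pt p l)]
    ring
  rw [Finset.sum_congr rfl fun j _ => h3 j] at h1
  have h4 : F 0 = 0 := by
    simp only [hF, add_zero, sub_zero]
    ring
  have h5 : ∑ j, F j = (p : ℤ) * (if k = l then 1 else 0) - 2 := by
    have e1 : ∀ j : ZMod p, F j = quadraticChar (ZMod p) (pt p k + j) *
        quadraticChar (ZMod p) (pt p l + j) + quadraticChar (ZMod p) (pt p k + j) *
        quadraticChar (ZMod p) (-pt p l + j) := by
      intro j
      simp only [hF]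
      rw [← chi_neg3 hp hn]
      congr 3
      ring
    rw [Finset.sum_congr rfl fun j _ => e1 j, Finset.sum_add_distrib, sum_corr h2, sum_corr h2,
      if_neg (pt_ne_neg hp k l)]
    by_cases hkl : k = l
    · rw [if_pos (by rw [hkl]), if_pos hkl]; ring
    · rw [if_neg (fun h => hkl (pt_inj hp h)), if_neg hkl]; ring
  rw [h4, zero_add] at h1
  rw [← h1, h5]

include hp hn in
/-- the square of the determinant -/
lemma C_det_sq : (matC p n).det ^ 2 = (p : ℤ) ^ (n - 1) := by
  have hn1 : 1 ≤ n := by omega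
  have h1 : ((matC p n)ᵀ * matC p n) = (p : ℤ) • (1 : Matrix (Fin n) (Fin n) ℤ) -
      Matrix.of (fun _ _ : Fin n => (2 : ℤ)) := by
    ext k l
    rw [Matrix.mul_apply]
    simp only [Matrix.transpose_apply, Matrix.sub_apply, Matrix.smul_apply, Matrix.one_apply,
      Matrix.of_apply, smul_eq_mul]
    exact C_gram hp hn k l
  have h2 := congrArg Matrix.det h1
  rw [Matrix.det_mul, Matrix.det_transpose, ← pow_two] at h2
  rw [h2]
  -- work over the rationals
  have h3 : ((((p : ℤ) • (1 : Matrix (Fin n) (Fin n) ℤ) -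
      Matrix.of (fun _ _ : Fin n => (2 : ℤ))).det : ℤ) : ℚ) = (((p : ℤ) ^ (n - 1) : ℤ) : ℚ) := by
    have hpr : p.Prime := Fact.out
    have hp0 : (p : ℚ) ≠ 0 := by exact_mod_cast hpr.ne_zero
    have e0 := RingHom.map_det (Int.castRingHom ℚ) ((p : ℤ) • (1 : Matrix (Fin n) (Fin n) ℤ) -
      Matrix.of (fun _ _ : Fin n => (2 : ℤ)))
    rw [eq_intCast] at e0
    rw [e0]
    have e1 : (Int.castRingHom ℚ).mapMatrix ((p : ℤ) • (1 : Matrix (Fin n) (Fin n) ℤ) -
        Matrix.of (fun _ _ : Fin n => (2 : ℤ))) = (p : ℚ) • (1 +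
        Matrix.replicateCol Unit (fun _ : Fin n => (-2 / p : ℚ)) *
          Matrix.replicateRow Unit (fun _ : Fin n => (1 : ℚ))) := by
      ext k l
      simp only [RingHom.mapMatrix_apply, Matrix.map_apply, Matrix.sub_apply, Matrix.smul_apply,
        Matrix.one_apply, Matrix.of_apply, smul_eq_mul, Matrix.add_apply, Matrix.mul_apply,
        Matrix.replicateCol_apply, Matrix.replicateRow_apply, Finset.univ_unique,
        Finset.sum_singleton, eq_intCast]
      push_cast
      split_ifs <;> field_simp <;> push_cast <;> ring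
    rw [e1, Matrix.det_smul, Matrix.det_one_add_replicateCol_mul_replicateRow, Fintype.card_fin]
    have e2 : (fun _ : Fin n => (1 : ℚ)) ⬝ᵥ (fun _ : Fin n => (-2 / p : ℚ)) = -2 * n / p := by
      simp [dotProduct]
      ring
    rw [e2]
    obtain ⟨m, rfl⟩ : ∃ m, n = m + 1 := ⟨n - 1, by omega⟩
    have hpq : (p : ℚ) = 2 * ((m + 1 : ℕ) : ℚ) + 1 := by exact_mod_cast hp
    rw [add_tsub_cancel_right, pow_succ]
    push_cast
    field_simp
    rw [hpq]
    push_cast
    ring
  exact_mod_cast h3

end

end Q263.LD
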