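import Mathlib
import Pool.Agent.Q263.LD.Three
import Pool.Agent.Q261.HalfSum

/-! The sign of the determinant of `χ(j+k) + χ(j-k)` for `p ≡ 3 (mod 4)`. -/

set_option autoImplicit false

open Finset Matrix

namespace Q263.LD

section

variable {p : ℕ} [Fact p.Prime] {n : ℕ}

/-- sine -/
noncomputable def sn (x : ZMod p) : ℝ := (ZMod.stdAddChar x : ℂ).im

/-- cosine -/
noncomputable def cn (x : ZMod p) : ℝ := (ZMod.stdAddChar x : ℂ).re

lemma sn_add (x y : ZMod p) : sn (x + y) = sn x * cn y + cn x * sn y := by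
  simp only [sn, cn, AddChar.map_add_eq_mul, Complex.mul_im]; ring

lemma cn_add (x y : ZMod p) : cn (x + y) = cn x * cn y - sn x * sn y := by
  simp only [sn, cn, AddChar.map_add_eq_mul, Complex.mul_re]

lemma sn_neg (x : ZMod p) : sn (-x) = - sn x := by
  simp [sn, AddChar.map_neg_eq_conj]

lemma cn_neg (x : ZMod p) : cn (-x) = cn x := by
  simp [cn, AddChar.map_neg_eq_conj]

lemma sn_zero : sn (0 : ZMod p) = 0 := by simp [sn]

lemma sum_cn (x : ZMod p) : ∑ a, cn (a * x) = if x = 0 then (p : ℝ) else 0 := by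
  have h := AddChar.sum_mulShift x (ZMod.isPrimitive_stdAddChar p)
  have h2 := congrArg Complex.re h
  rw [Complex.re_sum, ZMod.card] at h2
  simp only [cn]
  rw [h2]
  split_ifs <;> simp

lemma sum_sn_sn (u v : ZMod p) : ∑ a, sn (a * u) * sn (a * v) =
    (p : ℝ) / 2 * ((if u = v then 1 else 0) - (if u = -v then 1 else 0)) := by
  have h1 : ∀ a : ZMod p, sn (a * u) * sn (a * v) =
      (1 / 2 : ℝ) * cn (a * (u - v)) - 1 / 2 * cn (a * (u + v)) := by
    intro a
    have e1 : a * (u - v) = a * u + -(a * v) := by ring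
    have e2 : a * (u + v) = a * u + a * v := by ring
    rw [e1, e2, cn_add, cn_add, cn_neg, sn_neg]
    ring
  rw [Finset.sum_congr rfl fun a _ => h1 a, Finset.sum_sub_distrib, ← Finset.mul_sum,
    ← Finset.mul_sum, sum_cn, sum_cn]
  have e1 : (u - v = 0) ↔ u = v := sub_eq_zero
  have e2 : (u + v = 0) ↔ u = -v := add_eq_zero_iff_eq_neg
  by_cases h1 : u = v <;> by_cases h2 : u = -v
  · rw [if_pos (e1.mpr h1), if_pos (e2.mpr h2), if_pos h1, if_pos h2]; ring
  · rw [if_pos (e1.mpr h1), if_neg (fun h => h2 (e2.mp h)), if_pos h1, if_neg h2]; ring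
  · rw [if_neg (fun h => h1 (e1.mp h)), if_pos (e2.mpr h2), if_neg h1, if_pos h2]; ring
  · rw [if_neg (fun h => h1 (e1.mp h)), if_neg (fun h => h2 (e2.mp h)), if_neg h1, if_neg h2]
    ring

/-- sine transform -/
noncomputable def bt (φ : ZMod p → ℝ) (a : ZMod p) : ℝ := ∑ u, φ u * sn (a * u)

lemma bt_inv (φ : ZMod p → ℝ) (hodd : ∀ u, φ (-u) = -φ u) (v : ZMod p) :
    ∑ a, bt φ a * sn (a * v) = p * φ v := by
  have h1 : ∀ a : ZMod p, bt φ a * sn (a * v) = ∑ u, φ u * (sn (a * u) * sn (a * v)) := by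
    intro a
    rw [bt, Finset.sum_mul]
    exact Finset.sum_congr rfl fun u _ => by ring
  rw [Finset.sum_congr rfl fun a _ => h1 a, Finset.sum_comm]
  simp only [← Finset.mul_sum, sum_sn_sn]
  have h2 : ∀ u : ZMod p, φ u * ((p : ℝ) / 2 * ((if u = v then 1 else 0) -
      (if u = -v then 1 else 0))) = (if u = v then (p : ℝ) / 2 * φ u else 0) -
      (if u = -v then (p : ℝ) / 2 * φ u else 0) := by
    intro u
    split_ifs <;> ring
  rw [Finset.sum_congr rfl fun u _ => h2 u, Finset.sum_sub_distrib]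
  simp only [Finset.sum_ite_eq', Finset.mem_univ, if_true]
  rw [hodd]
  ring

lemma bt_fold (hp : p = 2 * n + 1) (φ : ZMod p → ℝ) (hodd : ∀ u, φ (-u) = -φ u) (v : ZMod p) :
    ∑ a : Fin n, bt φ (pt p a) * sn (pt p a * v) = p / 2 * φ v := by
  have h1 := bt_inv φ hodd v
  rw [fold hp] at h1
  have h2 : ∀ a : ZMod p, bt φ (-a) = - bt φ a := by
    intro a
    simp only [bt, neg_mul, sn_neg, mul_neg, Finset.sum_neg_distrib]
  rw [zero_mul, sn_zero, mul_zero, zero_add] at h1
  have h3 : ∀ k : Fin n, bt φ (pt p k) * sn (pt p k * v) + bt φ (-pt p k) * sn (-pt p k * v) =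
      2 * (bt φ (pt p k) * sn (pt p k * v)) := by
    intro k
    rw [h2, neg_mul (pt p k) v, sn_neg]
    ring
  rw [Finset.sum_congr rfl fun k _ => h3 k, ← Finset.mul_sum] at h1
  linarith

/-- the matrix attached to an odd function -/
def matF (φ : ZMod p → ℝ) : Matrix (Fin n) (Fin n) ℝ :=
  Matrix.of fun j k => φ (pt p j + pt p k) + φ (pt p j - pt p k)

/-- determinant of the matrix attached to an odd function -/
lemma det_matF (hp : p = 2 * n + 1) (φ : ZMod p → ℝ) (hodd : ∀ u, φ (-u) = -φ u) :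
    (matF (n := n) φ).det = ((4 / p : ℝ) ^ n *
      (Matrix.of fun j a : Fin n => sn (pt p a * pt p j)).det *
      (Matrix.of fun a k : Fin n => cn (pt p a * pt p k)).det) * ∏ a : Fin n, bt φ (pt p a) := by
  have hpr : p.Prime := Fact.out
  have hp0 : (p : ℝ) ≠ 0 := by exact_mod_cast hpr.ne_zero
  have h1 : matF (n := n) φ = (4 / p : ℝ) •
      ((Matrix.of fun j a : Fin n => sn (pt p a * pt p j)) *
      Matrix.diagonal (fun a : Fin n => bt φ (pt p a)) *
      (Matrix.of fun a k : Fin n => cn (pt p a * pt p k))) := by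
    ext j k
    rw [Matrix.smul_apply, Matrix.mul_apply]
    simp only [Matrix.mul_diagonal, Matrix.of_apply, smul_eq_mul, matF]
    have e1 := bt_fold hp φ hodd (pt p j + pt p k)
    have e2 := bt_fold hp φ hodd (pt p j - pt p k)
    have e3 : φ (pt p j + pt p k) + φ (pt p j - pt p k) = (2 / p : ℝ) *
      (∑ a : Fin n, bt φ (pt p a) * sn (pt p a * (pt p j + pt p k)) +
      ∑ a : Fin n, bt φ (pt p a) * sn (pt p a * (pt p j - pt p k))) := by
      rw [e1, e2]
      field_simp
    rw [e3, ← Finset.sum_add_distrib, Finset.mul_sum, Finset.mul_sum]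
    refine Finset.sum_congr rfl fun a _ => ?_
    have e4 : pt p a * (pt p j + pt p k) = pt p a * pt p j + pt p a * pt p k := by ring
    have e5 : pt p a * (pt p j - pt p k) = pt p a * pt p j + -(pt p a * pt p k) := by ring
    rw [e4, e5, sn_add, sn_add, cn_neg, sn_neg]
    ring
  rw [h1, Matrix.det_smul, Matrix.det_mul, Matrix.det_mul, Matrix.det_diagonal, Fintype.card_fin]
  ring

/-- the ratio identity -/
lemma det_ratio (hp : p = 2 * n + 1) (φ ρ : ZMod p → ℝ) (h1 : ∀ u, φ (-u) = -φ u)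
    (h2 : ∀ u, ρ (-u) = -ρ u) :
    (matF (n := n) φ).det * ∏ a : Fin n, bt ρ (pt p a) =
      (matF (n := n) ρ).det * ∏ a : Fin n, bt φ (pt p a) := by
  rw [det_matF hp φ h1, det_matF hp ρ h2]
  ring

lemma sn_natCast (j : ℕ) : sn ((j : ℕ) : ZMod p) = Real.sin (2 * Real.pi * j / p) := by
  have h1 := ZMod.stdAddChar_coe (N := p) (j : ℤ)
  rw [Int.cast_natCast] at h1
  rw [sn, h1]
  have h2 : (2 * Real.pi * Complex.I * ((j : ℤ) : ℂ) / (p : ℂ)) =
      ((2 * Real.pi * j / p : ℝ) : ℂ) * Complex.I := by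
    push_cast
    ring
  rw [h2, Complex.exp_ofReal_mul_I_im]

/-- the sign of the Gauss sum -/
lemma bt_chi (hp : p = 2 * n + 1) (hn : n % 2 = 1) (a : Fin n) :
    bt (fun u : ZMod p => ((quadraticChar (ZMod p) u : ℤ) : ℝ)) (pt p a) =
      ((quadraticChar (ZMod p) (pt p a) : ℤ) : ℝ) * Real.sqrt p := by
  have hpr : p.Prime := Fact.out
  have h1 := Q261.Rot.Sn_eq p (by omega) hpr.squarefree (((a : ℕ) + 1 : ℕ) : ℤ)
  have hjs : ∀ k : ℤ, Pool.Agent.H306R2.RZ.js k p =
      ((quadraticChar (ZMod p) (k : ZMod p) : ℤ) : ℝ) := by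
    intro k
    rw [Pool.Agent.H306R2.RZ.js, ← jacobiSym.legendreSym.to_jacobiSym]
    rfl
  rw [hjs, Pool.Agent.H987R2.RZ.Sn] at h1
  simp only [Int.cast_natCast] at h1
  rw [pt, ← h1, bt]
  have h2 : ∑ i : ZMod p, (fun u : ZMod p => ((quadraticChar (ZMod p) u : ℤ) : ℝ) *
      sn ((((a : ℕ) + 1 : ℕ) : ZMod p) * u)) i =
      ∑ i ∈ range p, (fun u : ZMod p => ((quadraticChar (ZMod p) u : ℤ) : ℝ) *
      sn ((((a : ℕ) + 1 : ℕ) : ZMod p) * u)) (i : ZMod p) := by
    symm
    apply Finset.sum_bij (fun (i : ℕ) _ => (i : ZMod p))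
    · intro a _; simp
    · intro a ha b hb hab
      rw [Finset.mem_range] at ha hb
      have := congrArg ZMod.val hab
      rwa [ZMod.val_natCast_of_lt ha, ZMod.val_natCast_of_lt hb] at this
    · intro b _
      exact ⟨b.val, by simpa using ZMod.val_lt b, by simp⟩
    · intro a _; rfl
  refine h2.trans (Finset.sum_congr rfl fun r _ => ?_)
  simp only []
  rw [hjs, Int.cast_natCast, ← Nat.cast_mul, sn_natCast]
  congr 2
  push_cast
  ring

/-- the test function -/
def rho (p n : ℕ) (u : ZMod p) : ℝ :=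
  (if u = (n : ℕ) then 1 else 0) - (if u = -((n : ℕ) : ZMod p) then 1 else 0)

lemma rho_neg (u : ZMod p) : rho p n (-u) = - rho p n u := by
  have e1 : (-u = ((n : ℕ) : ZMod p)) ↔ u = -((n : ℕ) : ZMod p) := by
    constructor
    · intro h; rw [← h, neg_neg]
    · intro h; rw [h, neg_neg]
  have e2 : (-u = -((n : ℕ) : ZMod p)) ↔ u = ((n : ℕ) : ZMod p) := neg_inj
  rw [rho, rho]
  simp only [e1, e2]
  ring

lemma bt_rho (hp : p = 2 * n + 1) (a : Fin n) :
    bt (rho p n) (pt p a) = (-1) ^ (a : ℕ) * (2 * Real.sin (Real.pi * ((a : ℕ) + 1 : ℕ) / p)) := by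
  have hpr : p.Prime := Fact.out
  have hp0 : (p : ℝ) ≠ 0 := by exact_mod_cast hpr.ne_zero
  have h1 : bt (rho p n) (pt p a) = 2 * sn (pt p a * ((n : ℕ) : ZMod p)) := by
    rw [bt]
    simp only [rho, sub_mul, ite_mul, one_mul, zero_mul, Finset.sum_sub_distrib,
      Finset.sum_ite_eq', Finset.mem_univ, if_true]
    rw [mul_neg, sn_neg]
    ring
  rw [h1, pt, ← Nat.cast_mul, sn_natCast]
  have h2 : 2 * Real.pi * ((((a : ℕ) + 1) * n : ℕ) : ℝ) / p =
      ((a : ℕ) + 1 : ℕ) * Real.pi - Real.pi * ((a : ℕ) + 1 : ℕ) / p := by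
    have hpq : (p : ℝ) = 2 * (n : ℝ) + 1 := by exact_mod_cast hp
    have hp1 : 2 * (n : ℝ) + 1 ≠ 0 := by rw [← hpq]; exact hp0
    rw [hpq]
    push_cast
    field_simp
    ring
  rw [h2, Real.sin_nat_mul_pi_sub, pow_succ]
  ring

lemma det_rho (hp : p = 2 * n + 1) (hn : n % 2 = 1) :
    (matF (n := n) (rho p n)).det = -∏ i : Fin n, (-1 : ℝ) ^ (i : ℕ) := by
  have hpr : p.Prime := Fact.out
  have hn1 : 0 < n := by omega
  -- reverse the columns
  have h1 := Matrix.det_permute' (Fin.revPerm (n := n)) (matF (n := n) (rho p n))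
  have h2 : ((matF (n := n) (rho p n)).submatrix id (Fin.revPerm (n := n))).det = -1 := by
    have key : ∀ j k : Fin n, (matF (n := n) (rho p n)) j (Fin.rev k) =
        (if (k : ℕ) = j + 1 then (1 : ℝ) else 0) - (if k = j then 1 else 0) := by
      intro j k
      have hj := j.2
      have hk := k.2
      have e1 : pt p j + pt p (Fin.rev k) = ((n + 1 + (j : ℕ) - k : ℕ) : ZMod p) := by
        rw [pt, pt, ← Nat.cast_add]
        congr 1
        rw [Fin.val_rev]
        omega
      have e2 : ∀ m : ℕ, m < p → ((m : ZMod p) = ((n : ℕ) : ZMod p) ↔ m = n) := by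
        intro m hm
        constructor
        · intro h
          have := congrArg ZMod.val h
          rwa [ZMod.val_natCast_of_lt hm, ZMod.val_natCast_of_lt (by omega)] at this
        · intro h; rw [h]
      have e3 : ∀ m : ℕ, m < p → ((m : ZMod p) = -((n : ℕ) : ZMod p) ↔ m = n + 1) := by
        intro m hm
        have e4 : -((n : ℕ) : ZMod p) = ((n + 1 : ℕ) : ZMod p) := by
          rw [neg_eq_iff_add_eq_zero, ← Nat.cast_add, show n + (n + 1) = p by omega]
          exact ZMod.natCast_self p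
        rw [e4]
        constructor
        · intro h
          have := congrArg ZMod.val h
          rwa [ZMod.val_natCast_of_lt hm, ZMod.val_natCast_of_lt (by omega)] at this
        · intro h; rw [h]
      have e5 : rho p n (pt p j - pt p (Fin.rev k)) = 0 := by
        have hz : ∀ i l : Fin n, pt p i - pt p l = ((p + (i : ℕ) - l : ℕ) : ZMod p) := by
          intro i l
          rw [Nat.cast_sub (by omega), Nat.cast_add, ZMod.natCast_self, pt, pt]
          push_cast
          ring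
        by_cases hlt : (j : ℕ) < (Fin.rev k : Fin n)
        · rw [hz, rho, if_neg, if_neg, sub_zero]
          · rw [e3 _ (by omega)]; have := (Fin.rev k).2; omega
          · rw [e2 _ (by omega)]; have := (Fin.rev k).2; omega
        · have : pt p j - pt p (Fin.rev k) = (((j : ℕ) - (Fin.rev k : Fin n) : ℕ) : ZMod p) := by
            rw [Nat.cast_sub (by omega), pt, pt]
            push_cast
            ring
          rw [this, rho, if_neg, if_neg, sub_zero]
          · rw [e3 _ (by omega)]; omega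
          · rw [e2 _ (by omega)]; omega
      rw [matF, Matrix.of_apply, e5, add_zero, e1, rho]
      congr 1
      · refine if_congr ((e2 _ (by omega)).trans ?_) rfl rfl
        constructor <;> intro h <;> omega
      · refine if_congr ((e3 _ (by omega)).trans ?_) rfl rfl
        constructor
        · intro h; apply Fin.ext; omega
        · intro h; rw [h]; omega
    rw [Matrix.det_of_isUpperTriangular]
    · have e6 : ∀ i : Fin n, ((matF (n := n) (rho p n)).submatrix id (Fin.revPerm (n := n))) i i =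
          -1 := by
        intro i
        rw [Matrix.submatrix_apply, id, Fin.revPerm_apply, key, if_neg (by omega), if_pos rfl]
        ring
      rw [Finset.prod_congr rfl fun i _ => e6 i, Finset.prod_const, Finset.card_univ,
        Fintype.card_fin, Odd.neg_one_pow (Nat.odd_iff.mpr hn)]
    · intro i j hij
      simp only [id] at hij
      rw [Matrix.submatrix_apply, id, Fin.revPerm_apply, key, if_neg, if_neg, sub_zero]
      · rintro rfl; exact lt_irrefl _ hij
      · have : (j : ℕ) < i := hij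
        omega
  -- the sign of the reversal
  have h3 : ((Equiv.Perm.sign (Fin.revPerm (n := n)) : ℤˣ) : ℤ) =
      ∏ i : Fin n, (-1 : ℤ) ^ (i : ℕ) := by
    rw [Equiv.Perm.sign_eq_prod_prod_Ioi]
    push_cast
    have e1 : ∀ i : Fin n, ∏ j ∈ Finset.Ioi i,
        (if Fin.revPerm i < Fin.revPerm j then (1 : ℤ) else -1) = (-1) ^ (Fin.rev i : ℕ) := by
      intro i
      have e2 : ∀ j ∈ Finset.Ioi i, (if Fin.revPerm i < Fin.revPerm j then (1 : ℤ) else -1) = -1 := by
        intro j hj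
        rw [Finset.mem_Ioi] at hj
        rw [if_neg]
        rw [Fin.revPerm_apply, Fin.revPerm_apply, Fin.rev_lt_rev]
        exact not_lt.mpr hj.le
      rw [Finset.prod_congr rfl e2, Finset.prod_const, Fin.card_Ioi, Fin.val_rev]
      congr 1
      omega
    have e3 : ∀ i : Fin n, ∏ j ∈ Finset.Ioi i,
        (((if Fin.revPerm i < Fin.revPerm j then (1 : ℤˣ) else -1) : ℤˣ) : ℤ) =
        (-1) ^ (Fin.rev i : ℕ) := by
      intro i
      rw [← e1 i]
      refine Finset.prod_congr rfl fun j _ => ?_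
      split_ifs <;> rfl
    rw [Finset.prod_congr rfl fun i _ => e3 i]
    exact Equiv.prod_comp (Fin.revPerm (n := n)) (fun i : Fin n => (-1 : ℤ) ^ (i : ℕ))
  rw [h2, h3] at h1
  have h4 : (∏ i : Fin n, (-1 : ℝ) ^ (i : ℕ)) * (∏ i : Fin n, (-1 : ℝ) ^ (i : ℕ)) = 1 := by
    rw [← Finset.prod_mul_distrib]
    refine Finset.prod_eq_one fun i _ => ?_
    rw [← mul_pow]; norm_num
  push_cast at h1
  calc (matF (n := n) (rho p n)).det = ((∏ i : Fin n, (-1 : ℝ) ^ (i : ℕ)) *
      (∏ i : Fin n, (-1 : ℝ) ^ (i : ℕ))) * (matF (n := n) (rho p n)).det := by rw [h4, one_mul]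
    _ = (∏ i : Fin n, (-1 : ℝ) ^ (i : ℕ)) * ((∏ i : Fin n, (-1 : ℝ) ^ (i : ℕ)) *
        (matF (n := n) (rho p n)).det) := by ring
    _ = _ := by rw [← h1]; ring

/-- the integer matrix over the reals -/
lemma matC_matF (p : ℕ) [Fact p.Prime] (n : ℕ) : (Int.castRingHom ℝ).mapMatrix (matC p n) =
    matF (fun u : ZMod p => ((quadraticChar (ZMod p) u : ℤ) : ℝ)) := by
  ext j k
  simp only [RingHom.mapMatrix_apply, Matrix.map_apply, matC, Matrix.of_apply, matF, eq_intCast]
  push_cast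
  rfl

/-- the determinant -/
theorem C_det (hp : p = 2 * n + 1) (hn : n % 2 = 1) : (matC p n).det =
    -(∏ k : Fin n, quadraticChar (ZMod p) (pt p k)) * (p : ℤ) ^ ((n - 1) / 2) := by
  have hpr : p.Prime := Fact.out
  have hp0 : (0 : ℝ) < p := by exact_mod_cast hpr.pos
  have h1 := det_ratio (n := n) hp (fun u : ZMod p => ((quadraticChar (ZMod p) u : ℤ) : ℝ))
    (rho p n) (fun u => by rw [chi_neg3 hp hn]; push_cast; rfl) (fun u => rho_neg u)
  rw [← matC_matF, ← RingHom.map_det, det_rho hp hn,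
    Finset.prod_congr rfl fun a _ => bt_chi hp hn a,
    Finset.prod_congr rfl fun a _ => bt_rho hp a] at h1
  have h4 : (∏ i : Fin n, (-1 : ℝ) ^ (i : ℕ)) * (∏ i : Fin n, (-1 : ℝ) ^ (i : ℕ)) = 1 := by
    rw [← Finset.prod_mul_distrib]
    refine Finset.prod_eq_one fun i _ => ?_
    rw [← mul_pow]; norm_num
  set E : ℝ := ∏ i : Fin n, (-1 : ℝ) ^ (i : ℕ) with hE
  set D : ℤ := (matC p n).det with hD
  set X : ℤ := ∏ k : Fin n, quadraticChar (ZMod p) (pt p k) with hX
  have hX2 : X * X = 1 := by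
    rw [hX, ← Finset.prod_mul_distrib]
    refine Finset.prod_eq_one fun k _ => ?_
    rw [← pow_two, quadraticChar_sq_one (pt_ne_zero hp k)]
  have hXr : ∏ i : Fin n, ((quadraticChar (ZMod p) (pt p i) : ℤ) : ℝ) = (X : ℝ) := by
    rw [hX]; push_cast; rfl
  have hE1 : ∏ i : Fin n, (-1 : ℝ) ^ (i : ℕ) * (2 * Real.sin (Real.pi * ((i : ℕ) + 1 : ℕ) / p)) =
      E * ∏ i : Fin n, 2 * Real.sin (Real.pi * ((i : ℕ) + 1 : ℕ) / p) := by
    rw [hE, ← Finset.prod_mul_distrib]
  have hX1 : ∏ i : Fin n, ((quadraticChar (ZMod p) (pt p i) : ℤ) : ℝ) * Real.sqrt p =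
      X * Real.sqrt p ^ (Finset.univ : Finset (Fin n)).card := by
    rw [Finset.prod_mul_distrib, hXr, Finset.prod_const]
  rw [hX1, hE1, eq_intCast] at h1
  -- positivity
  set T : ℝ := ∏ i : Fin n, 2 * Real.sin (Real.pi * ((i : ℕ) + 1 : ℕ) / p) with hT
  have hTpos : 0 < T := by
    refine Finset.prod_pos fun i _ => ?_
    refine mul_pos two_pos (Real.sin_pos_of_pos_of_lt_pi ?_ ?_)
    · positivity
    · rw [div_lt_iff₀ hp0]
      refine mul_lt_mul_of_pos_left ?_ Real.pi_pos
      have := i.2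
      exact_mod_cast (by omega : (i : ℕ) + 1 < p)
  have h5 : ((D * -X : ℤ) : ℝ) * T = Real.sqrt p ^ (Finset.univ : Finset (Fin n)).card := by
    have e1 : (X : ℝ) * X = 1 := by exact_mod_cast hX2
    push_cast
    calc (D : ℝ) * -X * T = (E * E) * ((D : ℝ) * -X * T) := by rw [h4, one_mul]
      _ = -(E * X) * (D * (E * T)) := by ring
      _ = -(E * X) * (-E * (X * Real.sqrt p ^ (Finset.univ : Finset (Fin n)).card)) := by rw [h1]
      _ = (E * E) * (X * X) * Real.sqrt p ^ (Finset.univ : Finset (Fin n)).card := by ring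
      _ = _ := by rw [h4, e1]; ring
  have h6 : 0 < D * -X := by
    have e1 : (0 : ℝ) < ((D * -X : ℤ) : ℝ) := by
      have e2 : (0 : ℝ) < ((D * -X : ℤ) : ℝ) * T := by rw [h5]; positivity
      exact (pos_iff_pos_of_mul_pos e2).mpr hTpos
    exact_mod_cast e1
  have h7 : (D * -X) ^ 2 = ((p : ℤ) ^ ((n - 1) / 2)) ^ 2 := by
    have e1 := C_det_sq hp hn
    rw [← hD] at e1
    rw [← pow_mul, show (n - 1) / 2 * 2 = n - 1 by omega, ← e1]
    calc (D * -X) ^ 2 = D ^ 2 * (X * X) := by ring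
      _ = _ := by rw [hX2, mul_one]
  have h8 : D * -X = (p : ℤ) ^ ((n - 1) / 2) := by
    have hpp : (0 : ℤ) ≤ (p : ℤ) ^ ((n - 1) / 2) := by positivity
    exact (pow_left_inj₀ h6.le hpp two_ne_zero).mp h7
  calc D = (X * X) * D := by rw [hX2, one_mul]
    _ = -X * (D * -X) := by ring
    _ = _ := by rw [h8]

end

end Q263.LD
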