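import Mathlib
import Pool.Agent.Q263.LD.Sign
import Pool.Agent.Q263.CN.Main

/-! The class number and the determinant of `χ(j+k) + χ(j-k)` for `p ≡ 3 (mod 4)`. -/

set_option autoImplicit false

open Finset Matrix

namespace Q263.LD

section

variable {p : ℕ} [Fact p.Prime] {n : ℕ}

/-- products and sums of signs modulo 4 -/
lemma sign_mod4 {ι : Type*} (s : Finset ι) (e : ι → ℤ) (he : ∀ i ∈ s, e i = 1 ∨ e i = -1) :
    (∏ i ∈ s, e i = 1 ∨ ∏ i ∈ s, e i = -1) ∧
    (4 : ℤ) ∣ ∏ i ∈ s, e i - 1 - (∑ i ∈ s, e i - s.card) := by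
  classical
  induction s using Finset.induction_on with
  | empty => simp
  | insert a s ha ih =>
    obtain ⟨h1, h2⟩ := ih fun i hi => he i (Finset.mem_insert_of_mem hi)
    rw [Finset.prod_insert ha, Finset.sum_insert ha, Finset.card_insert_of_notMem ha]
    rcases he a (Finset.mem_insert_self _ _) with h | h <;> rw [h]
    · refine ⟨by simpa using h1, ?_⟩
      push_cast
      rw [one_mul]
      convert h2 using 1
      ring
    · refine ⟨by rcases h1 with h | h <;> rw [h] <;> norm_num, ?_⟩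
      push_cast
      have h3 : (2 : ℤ) ∣ ∏ i ∈ s, e i - 1 := by
        rcases h1 with h | h <;> rw [h] <;> norm_num
      obtain ⟨c, hc⟩ := h2
      obtain ⟨d, hd⟩ := h3
      exact ⟨c - d, by linarith⟩

/-- the half sum is the class number -/
theorem Sh_eq (hp : p = 2 * n + 1) (hn : n % 2 = 1) (h3 : 3 < p) (K : Type*) [Field K]
    [NumberField K] (hK : Module.finrank ℚ K = 2) (x : K) (hx : x ^ 2 = -(p : K)) :
    Sh p n = (2 - legendreSym p 2) * (NumberField.classNumber K : ℤ) := by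
  have h1 := Q263.CN.class_number_formula p (by omega) h3 K hK x hx
  rw [h1, show (p - 1) / 2 = n by omega, Sh]
  have h2 : ∑ k ∈ Finset.Icc 1 n, legendreSym p (k : ℤ) =
      ∑ k ∈ Finset.range n, legendreSym p ((k + 1 : ℕ) : ℤ) := by
    rw [Finset.range_eq_Ico, Finset.sum_Ico_add' (fun k : ℕ => legendreSym p (k : ℤ)) 0 n 1]
    rfl
  rw [h2, Finset.sum_range]
  refine Finset.sum_congr rfl fun k _ => ?_
  rw [legendreSym, Int.cast_natCast]
  rfl

/-- the value of `χ(2)` -/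
lemma chi_two3 (hp : p = 2 * n + 1) (hn : n % 2 = 1) :
    (p % 8 = 7 ∧ legendreSym p 2 = 1) ∨ (p % 8 = 3 ∧ legendreSym p 2 = -1) := by
  have h2 : p ≠ 2 := by omega
  have h1 := ZMod.exists_sq_eq_two_iff (p := p) h2
  have h3 : legendreSym p 2 = ZMod.χ₈ p := legendreSym.at_two h2
  rw [h3]
  rcases (by omega : p % 8 = 7 ∨ p % 8 = 3) with h | h
  · left
    refine ⟨h, ?_⟩
    rw [← ZMod.natCast_mod p 8, h]
    rfl
  · right
    refine ⟨h, ?_⟩
    rw [← ZMod.natCast_mod p 8, h]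
    rfl

/-- the product of the Legendre symbols and the class number -/
theorem prod_eq (hp : p = 2 * n + 1) (hn : n % 2 = 1) (h3 : 3 < p) (K : Type*) [Field K]
    [NumberField K] (hK : Module.finrank ℚ K = 2) (x : K) (hx : x ^ 2 = -(p : K)) :
    -(∏ k : Fin n, quadraticChar (ZMod p) (pt p k)) =
      (-1) ^ ((NumberField.classNumber K - 1) / 2) := by
  have h1 := Sh_eq hp hn h3 K hK x hx
  obtain ⟨h4, h5⟩ := sign_mod4 (Finset.univ : Finset (Fin n))
    (fun k => quadraticChar (ZMod p) (pt p k)) (fun k _ =>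
      quadraticChar_dichotomy (pt_ne_zero hp k))
  rw [Finset.card_univ, Fintype.card_fin] at h5
  have h6 : ∑ k : Fin n, quadraticChar (ZMod p) (pt p k) = Sh p n := rfl
  rw [h6, h1] at h5
  set h := NumberField.classNumber K with hh
  set X : ℤ := ∏ k : Fin n, quadraticChar (ZMod p) (pt p k) with hX
  have h7 := chi_two3 hp hn
  -- `h` is odd
  have hodd : h % 2 = 1 := by
    rcases h7 with ⟨e1, e2⟩ | ⟨e1, e2⟩
    · rw [e2] at h5
      rcases h4 with h4 | h4 <;> rw [h4] at h5 <;> omega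
    · rw [e2] at h5
      rcases h4 with h4 | h4 <;> rw [h4] at h5 <;> omega
  have h8 : ((-1 : ℤ) ^ ((h - 1) / 2) = 1 ∧ (h - 1) / 2 % 2 = 0) ∨
      ((-1 : ℤ) ^ ((h - 1) / 2) = -1 ∧ (h - 1) / 2 % 2 = 1) := by
    rcases Nat.even_or_odd ((h - 1) / 2) with e | e
    · left; exact ⟨e.neg_one_pow, Nat.even_iff.mp e⟩
    · right; exact ⟨e.neg_one_pow, Nat.odd_iff.mp e⟩
  rcases h7 with ⟨e1, e2⟩ | ⟨e1, e2⟩ <;> rw [e2] at h5 <;>
    rcases h4 with h4 | h4 <;> rw [h4] at h5 ⊢ <;>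
    rcases h8 with ⟨e3, e4⟩ | ⟨e3, e4⟩ <;> rw [e3] <;> first | (exfalso; omega) | norm_num

/-- the determinant in terms of the class number -/
theorem C_det_cls (hp : p = 2 * n + 1) (hn : n % 2 = 1) (h3 : 3 < p) (K : Type*) [Field K]
    [NumberField K] (hK : Module.finrank ℚ K = 2) (x : K) (hx : x ^ 2 = -(p : K)) :
    (matC p n).det = (-1) ^ ((NumberField.classNumber K - 1) / 2) * (p : ℤ) ^ ((n - 1) / 2) := by
  rw [C_det hp hn, prod_eq hp hn h3 K hK x hx]

end

end Q263.LD
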