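import Mathlib

/-! Determinants attached to functions on a cyclic group. -/

set_option autoImplicit false

open Finset Matrix

namespace Q263.LD

/-- the nonzero residues -/
abbrev NZ (n : ℕ) := {a : ZMod n // a ≠ 0}

section minor

variable {n : ℕ} [NeZero n] {K : Type*} [Field K] (ψ : AddChar (ZMod n) K) (hψ : ψ.IsPrimitive)

/-- the Fourier transform -/
def lam (c : ZMod n → K) (k : ZMod n) : K := ∑ u, c u * ψ (u * k)

lemma sum_nz {M : Type*} [AddCommGroup M] (f : ZMod n → M) :
    ∑ a : NZ n, f a = ∑ a, f a - f 0 := by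
  have h1 : ∑ a : NZ n, f a = ∑ a ∈ univ.filter (fun a : ZMod n => a ≠ 0), f a := by
    rw [Finset.sum_subtype (univ.filter (fun a : ZMod n => a ≠ 0)) (p := fun a => a ≠ 0)]
    intro x; simp
  have h2 := Finset.sum_erase_eq_sub (f := f) (Finset.mem_univ (0 : ZMod n))
  rw [h1, ← h2]
  apply Finset.sum_congr
  · ext x; simp
  · intro _ _; rfl

include hψ in
/-- the minor of a cyclic matrix with zero row sums -/
theorem det_minor (hn : (n : K) ≠ 0) (c : ZMod n → K) (hc : ∑ u, c u = 0) :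
    (n : K) * (Matrix.of fun a b : NZ n => c (a - b)).det = ∏ k : NZ n, lam ψ c k := by
  classical
  set E : Matrix (NZ n) (NZ n) K := Matrix.of fun a b : NZ n => c (a - b) with hE
  set V : Matrix (NZ n) (NZ n) K := Matrix.of fun b k : NZ n => ψ (-(b * k) : ZMod n) - 1 with hV
  set Z : Matrix (NZ n) (NZ n) K := Matrix.of fun a k : NZ n => ψ (-(a * k) : ZMod n) with hZ
  set Y : Matrix (NZ n) (NZ n) K := Matrix.of fun l a : NZ n => ψ ((l * a : ZMod n)) with hY
  have h1 : E * V = Z * Matrix.diagonal (fun k : NZ n => lam ψ c k) := by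
    ext a k
    rw [Matrix.mul_apply, Matrix.mul_diagonal]
    simp only [hE, hV, hZ, Matrix.of_apply]
    rw [sum_nz (fun b : ZMod n => c ((a : ZMod n) - b) * (ψ (-(b * (k : ZMod n))) - 1))]
    have e1 : ∑ b : ZMod n, c (a - b) * (ψ (-(b * k)) - 1) =
        ∑ u : ZMod n, c u * (ψ (-((a - u) * k)) - 1) := by
      refine Fintype.sum_equiv (Equiv.subLeft (a : ZMod n)) _ _ fun x => ?_
      simp
    rw [e1]
    have e2 : ∀ u : ZMod n, c u * (ψ (-((a - u) * k)) - 1) =
        ψ (-((a : ZMod n) * k)) * (c u * ψ (u * k)) - c u := by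
      intro u
      have : (-(((a : ZMod n) - u) * k)) = -((a : ZMod n) * k) + u * k := by ring
      rw [this, AddChar.map_add_eq_mul]
      ring
    rw [Finset.sum_congr rfl fun u _ => e2 u, Finset.sum_sub_distrib, hc, ← Finset.mul_sum, lam]
    simp
  have h2 : V = Z * (1 + Matrix.replicateCol Unit (fun _ : NZ n => (1 : K)) *
      Matrix.replicateRow Unit (fun _ : NZ n => (1 : K))) := by
    ext a k
    rw [Matrix.mul_apply]
    simp only [hV, hZ, Matrix.of_apply, Matrix.add_apply, Matrix.one_apply, Matrix.mul_apply,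
      Matrix.replicateCol_apply, Matrix.replicateRow_apply, mul_one, Finset.univ_unique,
      Finset.sum_singleton, mul_add, Finset.sum_add_distrib]
    have e1 : ∑ x : NZ n, ψ (-((a : ZMod n) * x)) * (if x = k then (1 : K) else 0) =
        ψ (-((a : ZMod n) * k)) := by
      simp
    rw [e1, sum_nz (fun x : ZMod n => ψ (-((a : ZMod n) * x)))]
    have e2 : ∑ x : ZMod n, ψ (-((a : ZMod n) * x)) = 0 := by
      have := AddChar.sum_mulShift (-(a : ZMod n)) hψ
      rw [if_neg (neg_ne_zero.mpr a.2)] at this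
      rw [Nat.cast_zero] at this
      rw [← this]
      refine Finset.sum_congr rfl fun x _ => ?_
      congr 1
      ring
    rw [e2]
    simp
    ring
  have hcard : (Fintype.card (NZ n) : K) = n - 1 := by
    have := sum_nz (n := n) (fun _ => (1 : K))
    simp only [Finset.sum_const, Finset.card_univ, ZMod.card, nsmul_eq_mul, mul_one] at this
    exact this
  have h3 : V.det = Z.det * n := by
    rw [h2, Matrix.det_mul, Matrix.det_one_add_replicateCol_mul_replicateRow]
    congr 1
    simp only [dotProduct, mul_one, Finset.sum_const, Finset.card_univ, nsmul_eq_mul]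
    rw [hcard]; ring
  have h4 : Y * V = (n : K) • (1 : Matrix (NZ n) (NZ n) K) := by
    ext l k
    rw [Matrix.mul_apply, Matrix.smul_apply, Matrix.one_apply]
    simp only [hY, hV, Matrix.of_apply]
    rw [sum_nz (fun a : ZMod n => ψ ((l : ZMod n) * a) * (ψ (-(a * (k : ZMod n))) - 1))]
    have e1 : ∀ a : ZMod n, ψ ((l : ZMod n) * a) * (ψ (-(a * k)) - 1) =
        ψ (a * ((l : ZMod n) - k)) - ψ (a * l) := by
      intro a
      rw [mul_sub, ← AddChar.map_add_eq_mul, mul_one, mul_comm a (l : ZMod n)]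
      congr 2
      ring
    rw [Finset.sum_congr rfl fun a _ => e1 a, Finset.sum_sub_distrib,
      AddChar.sum_mulShift _ hψ, AddChar.sum_mulShift _ hψ, if_neg l.2]
    simp only [sub_eq_zero, ZMod.card]
    by_cases h : l = k
    · subst h; simp
    · rw [if_neg (fun h' => h (Subtype.ext h')), if_neg h]; simp
  have h5 : V.det ≠ 0 := by
    intro h0
    have := congrArg Matrix.det h4
    rw [Matrix.det_mul, h0, mul_zero, Matrix.det_smul, Matrix.det_one, mul_one] at this
    exact pow_ne_zero _ hn this.symm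
  have h6 : Z.det ≠ 0 := by
    intro h0
    rw [h0, zero_mul] at h3
    exact h5 h3
  have h7 := congrArg Matrix.det h1
  rw [Matrix.det_mul, Matrix.det_mul, Matrix.det_diagonal, h3] at h7
  apply mul_left_cancel₀ h6
  rw [← h7]
  ring

end minor

/-! ## Folding a cyclic group of even order -/

lemma fold_even {M : Type*} [AddCommMonoid M] {v : ℕ} (hv : 0 < v) (f : ZMod (2 * v) → M) :
    haveI : NeZero (2 * v) := ⟨by omega⟩
    ∑ l, f l = f 0 + f (v : ℕ) + ∑ k : Fin (v - 1),
      (f ((k : ℕ) + 1 : ℕ) + f (-(((k : ℕ) + 1 : ℕ) : ZMod (2 * v)))) := by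
  haveI : NeZero (2 * v) := ⟨by omega⟩
  have h1 : ∑ i : ZMod (2 * v), f i = ∑ i ∈ range (2 * v), f (i : ZMod (2 * v)) := by
    symm
    apply Finset.sum_bij (fun (i : ℕ) _ => (i : ZMod (2 * v)))
    · intro a _; simp
    · intro a ha b hb hab
      rw [Finset.mem_range] at ha hb
      have := congrArg ZMod.val hab
      rwa [ZMod.val_natCast_of_lt ha, ZMod.val_natCast_of_lt hb] at this
    · intro b _
      exact ⟨b.val, by simpa using ZMod.val_lt b, by simp⟩
    · intro a _; rfl
  have h2 : ∑ i ∈ range (2 * v), f (i : ZMod (2 * v)) =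
      ∑ i ∈ range ((v - 1) + (v - 1 + 1) + 1), f (i : ZMod (2 * v)) := by
    rw [show (v - 1) + (v - 1 + 1) + 1 = 2 * v by omega]
  rw [h1, h2, Finset.sum_range_succ', Finset.sum_range_add, Finset.sum_range_succ',
    Finset.sum_add_distrib]
  have e1 : ∑ x ∈ range (v - 1), f (((x + 1 : ℕ) : ℕ) : ZMod (2 * v)) =
      ∑ k : Fin (v - 1), f (((k : ℕ) + 1 : ℕ) : ZMod (2 * v)) := by
    rw [Finset.sum_range]
  have e2 : ∑ x ∈ range (v - 1), f (((v - 1 + (x + 1) + 1 : ℕ) : ℕ) : ZMod (2 * v)) =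
      ∑ k : Fin (v - 1), f (-(((k : ℕ) + 1 : ℕ) : ZMod (2 * v))) := by
    rw [← Finset.sum_range_reflect, Finset.sum_range]
    refine Finset.sum_congr rfl fun k _ => ?_
    congr 1
    rw [eq_neg_iff_add_eq_zero, ← Nat.cast_add]
    have h3 : v - 1 + (v - 1 - 1 - (k : ℕ) + 1) + 1 + ((k : ℕ) + 1) = 2 * v := by
      have := k.2
      omega
    rw [h3]
    exact ZMod.natCast_self _
  have e3 : ((v - 1 + 0 + 1 : ℕ) : ZMod (2 * v)) = ((v : ℕ) : ZMod (2 * v)) := by
    congr 1
    omega
  rw [e1, e2, e3, Nat.cast_zero]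
  abel

lemma fold_even_prod {M : Type*} [CommMonoid M] {v : ℕ} (hv : 0 < v) (f : ZMod (2 * v) → M) :
    haveI : NeZero (2 * v) := ⟨by omega⟩
    ∏ l, f l = f 0 * f (v : ℕ) * ∏ k : Fin (v - 1),
      (f ((k : ℕ) + 1 : ℕ) * f (-(((k : ℕ) + 1 : ℕ) : ZMod (2 * v)))) :=
  fold_even (M := Additive M) hv f

/-! ## The odd part of a cyclic matrix -/

section odd

variable {v : ℕ} {K : Type*} [Field K]

/-- the point `k + 1` of the cyclic group -/
def cp (v : ℕ) (k : Fin (v - 1)) : ZMod (2 * v) := ((k : ℕ) + 1 : ℕ)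

lemma cp_inj {j k : Fin (v - 1)} (h : cp v j = cp v k) : j = k := by
  rw [cp, cp, ZMod.natCast_eq_natCast_iff'] at h
  have h1 := j.2
  have h2 := k.2
  rw [Nat.mod_eq_of_lt (by omega), Nat.mod_eq_of_lt (by omega)] at h
  apply Fin.ext
  omega

lemma cp_add_ne (j k : Fin (v - 1)) : cp v j + cp v k ≠ 0 := by
  intro h
  rw [cp, cp, ← Nat.cast_add, ZMod.natCast_eq_zero_iff] at h
  have h1 := j.2
  have h2 := k.2
  have := Nat.le_of_dvd (by omega) h
  omega

lemma two_v (v : ℕ) : ((v : ℕ) : ZMod (2 * v)) + (v : ℕ) = 0 := by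
  rw [← Nat.cast_add, ← two_mul]
  exact ZMod.natCast_self _

theorem det_odd (hv : 0 < v) (ψ : AddChar (ZMod (2 * v)) K) (hψ : ψ.IsPrimitive)
    (hn : ((2 * v : ℕ) : K) ≠ 0) (m : ZMod (2 * v) → K) (hm : ∀ u, m (-u) = m u) :
    haveI : NeZero (2 * v) := ⟨by omega⟩
    (Matrix.of fun a b : Fin (v - 1) => m (cp v a - cp v b) - m (cp v a + cp v b)).det =
      ∏ k : Fin (v - 1), lam ψ m (cp v k) := by
  haveI : NeZero (2 * v) := ⟨by omega⟩
  classical
  set N : Matrix (Fin (v - 1)) (Fin (v - 1)) K :=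
    Matrix.of fun a b : Fin (v - 1) => m (cp v a - cp v b) - m (cp v a + cp v b) with hN
  set S : Matrix (Fin (v - 1)) (Fin (v - 1)) K :=
    Matrix.of fun b k : Fin (v - 1) => ψ (cp v b * cp v k) - ψ (-(cp v b * cp v k)) with hS
  have hnegv : -((v : ℕ) : ZMod (2 * v)) = (v : ℕ) := by
    rw [neg_eq_iff_add_eq_zero]; exact two_v v
  have hlam : ∀ k, ∑ u, m u * ψ (-(u * k)) = lam ψ m k := by
    intro k
    rw [lam]
    refine Fintype.sum_equiv (Equiv.neg _) _ _ fun u => ?_
    simp only [Equiv.neg_apply]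
    rw [hm, neg_mul]
  have h1 : N * S = S * Matrix.diagonal (fun k : Fin (v - 1) => lam ψ m (cp v k)) := by
    ext a k
    rw [Matrix.mul_apply, Matrix.mul_diagonal]
    simp only [hN, hS, Matrix.of_apply]
    set F : ZMod (2 * v) → K := fun b => m (cp v a - b) * (ψ (b * cp v k) - ψ (-(b * cp v k)))
      with hF
    have e1 := fold_even hv F
    have e2 : F 0 = 0 := by simp [hF]
    have e3 : F (v : ℕ) = 0 := by
      simp only [hF]
      rw [← neg_mul, hnegv, sub_self, mul_zero]
    have e4 : ∀ b : Fin (v - 1), F ((b : ℕ) + 1 : ℕ) + F (-(((b : ℕ) + 1 : ℕ) : ZMod (2 * v))) =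
        (m (cp v a - cp v b) - m (cp v a + cp v b)) *
          (ψ (cp v b * cp v k) - ψ (-(cp v b * cp v k))) := by
      intro b
      simp only [hF]
      have : (((b : ℕ) + 1 : ℕ) : ZMod (2 * v)) = cp v b := rfl
      rw [this, sub_neg_eq_add, neg_mul, neg_neg]
      ring
    rw [e2, e3, Finset.sum_congr rfl fun b _ => e4 b, zero_add, zero_add] at e1
    rw [← e1]
    have e5 : ∑ l, F l = ∑ u, m u * (ψ ((cp v a - u) * cp v k) - ψ (-((cp v a - u) * cp v k))) := by
      refine Fintype.sum_equiv (Equiv.subLeft (cp v a)) _ _ fun x => ?_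
      simp [hF]
    have e6 : ∀ u, m u * (ψ ((cp v a - u) * cp v k) - ψ (-((cp v a - u) * cp v k))) =
        ψ (cp v a * cp v k) * (m u * ψ (-(u * cp v k))) -
          ψ (-(cp v a * cp v k)) * (m u * ψ (u * cp v k)) := by
      intro u
      have h1 : (cp v a - u) * cp v k = cp v a * cp v k + (-(u * cp v k)) := by ring
      have h2 : -((cp v a - u) * cp v k) = -(cp v a * cp v k) + u * cp v k := by ring
      rw [h2, h1, AddChar.map_add_eq_mul, AddChar.map_add_eq_mul]
      ring
    rw [e5, Finset.sum_congr rfl fun u _ => e6 u, Finset.sum_sub_distrib, ← Finset.mul_sum,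
      ← Finset.mul_sum, hlam]
    rw [show ∑ u, m u * ψ (u * cp v k) = lam ψ m (cp v k) from rfl]
    ring
  have h2 : S * S = (-((2 * v : ℕ) : K)) • (1 : Matrix (Fin (v - 1)) (Fin (v - 1)) K) := by
    ext a k
    rw [Matrix.mul_apply, Matrix.smul_apply, Matrix.one_apply]
    simp only [hS, Matrix.of_apply]
    set F : ZMod (2 * v) → K := fun b => (ψ (cp v a * b) - ψ (-(cp v a * b))) * ψ (b * cp v k)
      with hF
    have e1 := fold_even hv F
    have e2 : F 0 = 0 := by simp [hF]
    have e3 : F (v : ℕ) = 0 := by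
      simp only [hF]
      rw [← mul_neg, hnegv, sub_self, zero_mul]
    have e4 : ∀ b : Fin (v - 1), F ((b : ℕ) + 1 : ℕ) + F (-(((b : ℕ) + 1 : ℕ) : ZMod (2 * v))) =
        (ψ (cp v a * cp v b) - ψ (-(cp v a * cp v b))) *
          (ψ (cp v b * cp v k) - ψ (-(cp v b * cp v k))) := by
      intro b
      simp only [hF]
      have : (((b : ℕ) + 1 : ℕ) : ZMod (2 * v)) = cp v b := rfl
      rw [this, mul_neg, neg_neg, neg_mul]
      ring
    rw [e2, e3, Finset.sum_congr rfl fun b _ => e4 b, zero_add, zero_add] at e1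
    rw [← e1]
    have e6 : ∀ b, F b = ψ (b * (cp v a + cp v k)) - ψ (b * (cp v k - cp v a)) := by
      intro b
      simp only [hF]
      rw [sub_mul, ← AddChar.map_add_eq_mul, ← AddChar.map_add_eq_mul]
      congr 2 <;> ring
    rw [Finset.sum_congr rfl fun b _ => e6 b, Finset.sum_sub_distrib,
      AddChar.sum_mulShift _ hψ, AddChar.sum_mulShift _ hψ, if_neg (cp_add_ne a k)]
    simp only [sub_eq_zero, ZMod.card]
    by_cases h : a = k
    · subst h; simp
    · rw [if_neg (fun h' => h (cp_inj h').symm), if_neg h]; simp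
  have h3 : S.det ≠ 0 := by
    intro h0
    have := congrArg Matrix.det h2
    rw [Matrix.det_mul, h0, mul_zero, Matrix.det_smul, Matrix.det_one, mul_one] at this
    exact pow_ne_zero _ (neg_ne_zero.mpr hn) this.symm
  have h4 := congrArg Matrix.det h1
  rw [Matrix.det_mul, Matrix.det_mul, Matrix.det_diagonal, mul_comm] at h4
  exact mul_left_cancel₀ h3 h4

end odd

end Q263.LD
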