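import Mathlib
import Pool.Agent.Q263.LD.Cyc

/-! Primitive roots modulo a prime `p = 4 v + 1` and quadratic characters. -/

set_option autoImplicit false

open Finset Matrix

namespace Q263.LD

section

variable {p : ℕ} [Fact p.Prime] {v : ℕ}

lemma exists_gen (p : ℕ) [Fact p.Prime] : ∃ g : ZMod p, IsPrimitiveRoot g (p - 1) := by
  obtain ⟨u, hu⟩ := IsCyclic.exists_generator (α := (ZMod p)ˣ)
  have h1 := orderOf_eq_card_of_forall_mem_zpowers hu
  rw [Nat.card_eq_fintype_card, ZMod.card_units] at h1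
  refine ⟨(u : ZMod p), ?_⟩
  rw [IsPrimitiveRoot.coe_units_iff, ← h1]
  exact IsPrimitiveRoot.orderOf u

variable (hp : p = 4 * v + 1) {g : ZMod p} (hg : IsPrimitiveRoot g (p - 1))

include hp in
lemma v_pos : 0 < v := by
  have := (Fact.out : p.Prime).two_le
  omega

include hp in
lemma chi_neg_one : quadraticChar (ZMod p) (-1) = 1 := by
  have h2 : ringChar (ZMod p) ≠ 2 := by rw [ZMod.ringChar_zmod_n]; omega
  rw [quadraticChar_neg_one h2, ZMod.card, ZMod.χ₄_nat_one_mod_four (by omega)]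

include hp in
lemma chi_neg' (a : ZMod p) : quadraticChar (ZMod p) (-a) = quadraticChar (ZMod p) a := by
  rw [neg_eq_neg_one_mul, map_mul, chi_neg_one hp, one_mul]

include hp in
/-- Euler's criterion -/
lemma chi_pow (a : ZMod p) : ((quadraticChar (ZMod p) a : ℤ) : ZMod p) = a ^ (2 * v) := by
  have h2 : ringChar (ZMod p) ≠ 2 := by rw [ZMod.ringChar_zmod_n]; omega
  rw [quadraticChar_eq_pow_of_char_ne_two' h2, ZMod.card]
  congr 1
  omega

lemma int_inj {a b : ℤ} (h2 : p ≠ 2) (ha : a = 1 ∨ a = -1) (hb : b = 1 ∨ b = -1)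
    (h : (a : ZMod p) = b) : a = b := by
  have h3 : (2 : ZMod p) ≠ 0 := by
    have h4 : ((2 : ℕ) : ZMod p) ≠ 0 := by
      rw [Ne, ZMod.natCast_eq_zero_iff]
      intro hd
      have := Nat.le_of_dvd (by norm_num) hd
      have := (Fact.out : p.Prime).two_le
      omega
    exact_mod_cast h4
  rcases ha with rfl | rfl <;> rcases hb with rfl | rfl
  · rfl
  · exfalso
    apply h3
    push_cast at h
    linear_combination h
  · exfalso
    apply h3
    push_cast at h
    linear_combination -h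
  · rfl

include hp hg in
lemma g_half : g ^ (2 * v) = -1 := by
  have h0 := v_pos hp
  have h1 : (g ^ (2 * v)) ^ 2 = 1 := by
    rw [← pow_mul, show 2 * v * 2 = p - 1 by omega]
    exact hg.pow_eq_one
  have h2 : g ^ (2 * v) ≠ 1 := by
    intro h
    have := hg.dvd_of_pow_eq_one _ h
    have := Nat.le_of_dvd (by omega) this
    omega
  have h3 : (g ^ (2 * v) - 1) * (g ^ (2 * v) + 1) = 0 := by
    linear_combination h1
  rcases mul_eq_zero.mp h3 with h | h
  · exact absurd (sub_eq_zero.mp h) h2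
  · exact eq_neg_of_add_eq_zero_left h

include hg in
lemma g_ne_zero : g ≠ 0 := by
  have := (Fact.out : p.Prime).two_le
  exact hg.ne_zero (by omega)

include hp hg in
lemma chi_g : quadraticChar (ZMod p) g = -1 := by
  apply int_inj (p := p) (by omega) (quadraticChar_dichotomy (g_ne_zero hg)) (Or.inr rfl)
  rw [chi_pow hp, g_half hp hg]
  push_cast
  rfl

include hp hg in
lemma sq_prim : IsPrimitiveRoot (g ^ 2) (2 * v) :=
  hg.pow (by have := v_pos hp; omega) (by omega)

/-! ## The sequence `c` -/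

section seq

variable [NeZero (2 * v)] (ψ : AddChar (ZMod (2 * v)) (ZMod p))
  (hψ : ∀ u : ZMod (2 * v), ψ u = (g ^ 2) ^ u.val)

/-- the sequence `c(u) = χ(g^{2u} + g)` -/
def cs (v : ℕ) (g : ZMod p) (ψ : AddChar (ZMod (2 * v)) (ZMod p)) (u : ZMod (2 * v)) : ℤ :=
  quadraticChar (ZMod p) (ψ u + g)

include hg hψ in
lemma chi_psi (u : ZMod (2 * v)) : quadraticChar (ZMod p) (ψ u) = 1 := by
  rw [hψ, ← pow_mul, mul_comm, pow_mul, map_pow]
  exact quadraticChar_sq_one (pow_ne_zero _ (g_ne_zero hg))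

lemma psi_ne_zero (u : ZMod (2 * v)) : ψ u ≠ 0 := by
  intro h
  have h1 : ψ u * ψ (-u) = 1 := by rw [← AddChar.map_add_eq_mul]; simp
  rw [h, zero_mul] at h1
  exact zero_ne_one h1

include hp hg hψ in
lemma cs_ne (u : ZMod (2 * v)) : ψ u + g ≠ 0 := by
  intro h
  have h1 : ψ u = -g := eq_neg_of_add_eq_zero_left h
  have h2 := chi_psi hg ψ hψ u
  rw [h1, chi_neg' hp, chi_g hp hg] at h2
  norm_num at h2

include hp hg hψ in
lemma cs_dich (u : ZMod (2 * v)) : cs v g ψ u = 1 ∨ cs v g ψ u = -1 :=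
  quadraticChar_dichotomy (cs_ne hp hg ψ hψ u)

include hp hψ in
lemma psi_one : ψ 1 = g ^ 2 := by
  rw [hψ]
  have h0 := v_pos hp
  have : (1 : ZMod (2 * v)).val = 1 := by
    haveI : Fact (1 < 2 * v) := ⟨by omega⟩
    exact ZMod.val_one _
  rw [this, pow_one]

include hp hg hψ in
lemma cs_anti (u : ZMod (2 * v)) : cs v g ψ (1 - u) = - cs v g ψ u := by
  have h1 : ψ (1 - u) + g = g * (ψ (-u) * (ψ u + g)) := by
    rw [sub_eq_add_neg, AddChar.map_add_eq_mul, psi_one hp ψ hψ]
    have h2 : ψ (-u) * ψ u = 1 := by rw [← AddChar.map_add_eq_mul]; simp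
    linear_combination -g * h2
  rw [cs, h1, map_mul, map_mul, chi_psi hg ψ hψ, chi_g hp hg, cs]
  ring

include hp hg hψ in
lemma cs_sum : ∑ u, cs v g ψ u = 0 := by
  have h1 : ∑ u, cs v g ψ u = ∑ u, cs v g ψ (1 - u) :=
    (Fintype.sum_equiv (Equiv.subLeft (1 : ZMod (2 * v))) _ _ fun x => rfl).symm
  have h2 : ∑ u, cs v g ψ (1 - u) = - ∑ u, cs v g ψ u := by
    rw [← Finset.sum_neg_distrib]
    exact Finset.sum_congr rfl fun u _ => cs_anti hp hg ψ hψ u
  omega

/-- the partial sums -/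
def ms (v : ℕ) (g : ZMod p) (ψ : AddChar (ZMod (2 * v)) (ZMod p)) (u : ZMod (2 * v)) : ℤ :=
  ∑ i ∈ range (u.val + 1), cs v g ψ (i : ZMod (2 * v))

include hp hg hψ in
lemma ms_sub (u : ZMod (2 * v)) : ms v g ψ u - ms v g ψ (u - 1) = cs v g ψ u := by
  have h0 := v_pos hp
  rcases Nat.eq_zero_or_pos u.val with h | h
  · have hu : u = 0 := by rwa [ZMod.val_eq_zero] at h
    subst hu
    have h1 : (0 - 1 : ZMod (2 * v)).val = 2 * v - 1 := by
      have h2 : (0 - 1 : ZMod (2 * v)) = ((2 * v - 1 : ℕ) : ZMod (2 * v)) := by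
        rw [Nat.cast_sub (by omega), ZMod.natCast_self, Nat.cast_one]
      rw [h2, ZMod.val_natCast_of_lt (by omega)]
    rw [ms, ms, h1, ZMod.val_zero, show 2 * v - 1 + 1 = 2 * v by omega, zero_add,
      Finset.sum_range_one, Nat.cast_zero]
    have h3 : ∑ i ∈ range (2 * v), cs v g ψ (i : ZMod (2 * v)) = ∑ u, cs v g ψ u := by
      apply Finset.sum_bij (fun (i : ℕ) _ => (i : ZMod (2 * v)))
      · intro a _; simp
      · intro a ha b hb hab
        rw [Finset.mem_range] at ha hb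
        have := congrArg ZMod.val hab
        rwa [ZMod.val_natCast_of_lt ha, ZMod.val_natCast_of_lt hb] at this
      · intro b _
        exact ⟨b.val, by simpa using ZMod.val_lt b, by simp⟩
      · intro a _; rfl
    rw [h3, cs_sum hp hg ψ hψ, sub_zero]
  · have h1 : (u - 1 : ZMod (2 * v)).val = u.val - 1 := by
      have h2 : (u - 1 : ZMod (2 * v)) = ((u.val - 1 : ℕ) : ZMod (2 * v)) := by
        rw [Nat.cast_sub (by omega), ZMod.natCast_val, ZMod.cast_id, Nat.cast_one]
      rw [h2, ZMod.val_natCast_of_lt]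
      have := ZMod.val_lt u
      omega
    rw [ms, ms, h1, show u.val - 1 + 1 = u.val by omega, Finset.sum_range_succ, ZMod.natCast_val,
      ZMod.cast_id]
    ring

include hp hg hψ in
lemma ms_neg (u : ZMod (2 * v)) : ms v g ψ (-u) = ms v g ψ u := by
  have hstep : ∀ u : ZMod (2 * v), ms v g ψ (-(u + 1)) - ms v g ψ (u + 1) =
      ms v g ψ (-u) - ms v g ψ u := by
    intro u
    have h1 := ms_sub hp hg ψ hψ (-u)
    have h2 := ms_sub hp hg ψ hψ (u + 1)
    have h3 := cs_anti hp hg ψ hψ (u + 1)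
    rw [show (1 : ZMod (2 * v)) - (u + 1) = -u by ring] at h3
    rw [show -u - 1 = -(u + 1) by ring] at h1
    rw [show u + 1 - 1 = u by ring] at h2
    linarith
  have hnat : ∀ i : ℕ, ms v g ψ (-(i : ZMod (2 * v))) - ms v g ψ (i : ZMod (2 * v)) = 0 := by
    intro i
    induction i with
    | zero => simp
    | succ i ih =>
      rw [Nat.cast_add, Nat.cast_one, hstep, ih]
  have := hnat u.val
  rw [ZMod.natCast_val, ZMod.cast_id] at this
  linarith

include hp hg hψ in
lemma ms_parity (u : ZMod (2 * v)) : (ms v g ψ u) % 2 = (u.val + 1 : ℤ) % 2 := by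
  have h : ∀ n : ℕ, (∑ i ∈ range n, cs v g ψ (i : ZMod (2 * v))) % 2 = (n : ℤ) % 2 := by
    intro n
    induction n with
    | zero => simp
    | succ n ih =>
      rw [Finset.sum_range_succ]
      push_cast
      rcases cs_dich hp hg ψ hψ (n : ZMod (2 * v)) with h | h <;> rw [h] <;> omega
  have := h (u.val + 1)
  push_cast at this
  exact this

include hp hg hψ in
lemma ms_even (a b : ZMod (2 * v)) : 2 ∣ ms v g ψ (a - b) - ms v g ψ (a + b) := by
  have h1 := ms_parity hp hg ψ hψ (a - b)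
  have h2 := ms_parity hp hg ψ hψ (a + b)
  have h3 : ((a - b).val : ℤ) % 2 = ((a + b).val : ℤ) % 2 := by
    have e : a - b + 2 * b = a + b := by ring
    have h4 : (a - b).val ≡ (a + b).val [MOD 2] := by
      have h5 := congrArg ZMod.val e
      have h6 : ((a - b : ZMod (2 * v)) + 2 * b) =
          (((a - b).val + 2 * b.val : ℕ) : ZMod (2 * v)) := by
        push_cast
        rw [ZMod.natCast_val, ZMod.cast_id, ZMod.natCast_val, ZMod.cast_id]
      rw [h6, ZMod.val_natCast] at h5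
      rw [Nat.ModEq, ← h5, Nat.mod_mod_of_dvd _ (Dvd.intro v rfl)]
      omega
    unfold Nat.ModEq at h4
    omega
  omega

/-- half of the odd part -/
def Nm (v : ℕ) (g : ZMod p) (ψ : AddChar (ZMod (2 * v)) (ZMod p)) :
    Matrix (Fin (v - 1)) (Fin (v - 1)) ℤ :=
  Matrix.of fun a b => (ms v g ψ (cp v a - cp v b) - ms v g ψ (cp v a + cp v b)) / 2

include hp hg hψ in
lemma two_Nm : (Matrix.of fun a b : Fin (v - 1) =>
    ms v g ψ (cp v a - cp v b) - ms v g ψ (cp v a + cp v b)) = (2 : ℤ) • Nm v g ψ := by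
  ext a b
  simp only [Matrix.of_apply, Matrix.smul_apply, Nm, smul_eq_mul]
  exact (Int.mul_ediv_cancel' (ms_even hp hg ψ hψ _ _)).symm

include hp hg hψ in
/-- the Fourier transform of `c` and of its partial sums -/
lemma lam_ms {K : Type*} [Field K] (φ : AddChar (ZMod (2 * v)) K) (k : ZMod (2 * v)) :
    lam φ (fun u => ((cs v g ψ u : ℤ) : K)) k =
      (1 - φ k) * lam φ (fun u => ((ms v g ψ u : ℤ) : K)) k := by
  have h1 : lam φ (fun u => ((cs v g ψ u : ℤ) : K)) k =
      ∑ u, ((ms v g ψ u : ℤ) : K) * φ (u * k) - ∑ u, ((ms v g ψ (u - 1) : ℤ) : K) * φ (u * k) := by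
    rw [lam, ← Finset.sum_sub_distrib]
    refine Finset.sum_congr rfl fun u _ => ?_
    rw [← ms_sub hp hg ψ hψ u]
    push_cast
    ring
  have h2 : ∑ u, ((ms v g ψ (u - 1) : ℤ) : K) * φ (u * k) =
      φ k * ∑ u, ((ms v g ψ u : ℤ) : K) * φ (u * k) := by
    rw [Finset.mul_sum]
    refine Fintype.sum_equiv (Equiv.subRight (1 : ZMod (2 * v))) _ _ fun x => ?_
    simp only [Equiv.subRight_apply]
    have : x * k = k + (x - 1) * k := by ring
    rw [this, AddChar.map_add_eq_mul]
    ring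
  rw [h1, h2, lam]
  ring

end seq

end

end Q263.LD
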