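import Mathlib
import Pool.Agent.Q263.LD.Base

/-! The matrices `χ(j+k) ± χ(j-k)` for `p ≡ 1 (mod 4)`. -/

set_option autoImplicit false

open Finset Matrix

namespace Q263.LD

section One


variable {p : ℕ} [Fact p.Prime]

/-- the matrix `χ(j+k) - χ(j-k)`, `1 ≤ j,k ≤ n` -/
def matA (p n : ℕ) [Fact p.Prime] : Matrix (Fin n) (Fin n) ℤ :=
  Matrix.of fun j k => quadraticChar (ZMod p) (pt p j + pt p k) -
    quadraticChar (ZMod p) (pt p j - pt p k)

lemma leg_add {n : ℕ} (j k : Fin n) :
    legendreSym p (((j : ℤ) + 1) + ((k : ℤ) + 1)) = quadraticChar (ZMod p) (pt p j + pt p k) := by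
  rw [legendreSym]
  congr 1
  simp only [pt]
  push_cast
  ring

lemma leg_sub {n : ℕ} (j k : Fin n) :
    legendreSym p (((j : ℤ) + 1) - ((k : ℤ) + 1)) = quadraticChar (ZMod p) (pt p j - pt p k) := by
  rw [legendreSym]
  congr 1
  simp only [pt]
  push_cast
  ring

lemma leg_pt {n : ℕ} (j : Fin n) : legendreSym p ((j : ℤ) + 1) = quadraticChar (ZMod p) (pt p j) := by
  rw [legendreSym]
  congr 1
  simp only [pt]
  push_cast
  ring

variable {m : ℕ}

section facts

variable (hp : p = 2 * (2 * m) + 1)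

omit [Fact p.Prime] in
include hp in
lemma ne_two1 : p ≠ 2 := by omega

include hp in
lemma chi_neg1 (a : ZMod p) : quadraticChar (ZMod p) (-a) = quadraticChar (ZMod p) a := by
  have h2 : ringChar (ZMod p) ≠ 2 := by rw [ZMod.ringChar_zmod_n]; exact ne_two1 hp
  have h1 : quadraticChar (ZMod p) (-1) = 1 := by
    rw [quadraticChar_neg_one h2, ZMod.card, ZMod.χ₄_nat_one_mod_four (by omega)]
  rw [neg_eq_neg_one_mul, map_mul, h1, one_mul]

/-- the matrix of `chi(j+k) + chi(j-k)` -/
def matB (p m : ℕ) [Fact p.Prime] : Matrix (Fin (2 * m)) (Fin (2 * m)) ℤ :=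
  Matrix.of fun j k => quadraticChar (ZMod p) (pt p j + pt p k) +
    quadraticChar (ZMod p) (pt p j - pt p k)

/-- the columns `1` and `chi` -/
def matU (p m : ℕ) [Fact p.Prime] : Matrix (Fin (2 * m)) (Fin 2) ℤ :=
  Matrix.of fun j i => ![1, quadraticChar (ZMod p) (pt p j)] i

include hp in
lemma A_sq : matA p (2 * m) * matA p (2 * m) = (p : ℤ) • (1 : Matrix _ _ ℤ) := by
  ext j k
  rw [Matrix.mul_apply]
  simp only [matA, Matrix.of_apply]
  set F : ZMod p → ℤ := fun l => quadraticChar (ZMod p) (pt p j + l) * quadraticChar (ZMod p) (l + pt p k) -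
    quadraticChar (ZMod p) (pt p j + l) * quadraticChar (ZMod p) (l - pt p k) with hF
  have h1 := fold hp F
  have h2 : ∀ l : Fin (2 * m), F (pt p l) + F (-pt p l) =
      (quadraticChar (ZMod p) (pt p j + pt p l) - quadraticChar (ZMod p) (pt p j - pt p l)) *
        (quadraticChar (ZMod p) (pt p l + pt p k) - quadraticChar (ZMod p) (pt p l - pt p k)) := by
    intro l
    simp only [hF]
    have e1 : quadraticChar (ZMod p) (-pt p l + pt p k) = quadraticChar (ZMod p) (pt p l - pt p k) := by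
      rw [← chi_neg1 hp]; congr 1; ring
    have e2 : quadraticChar (ZMod p) (-pt p l - pt p k) = quadraticChar (ZMod p) (pt p l + pt p k) := by
      rw [← chi_neg1 hp]; congr 1; ring
    rw [e1, e2, ← sub_eq_add_neg]
    ring
  rw [Finset.sum_congr rfl fun l _ => h2 l] at h1
  have h3 : F 0 = 0 := by
    simp only [hF]
    rw [zero_add, zero_sub, chi_neg1 hp]
    ring
  have h4 : ∑ l : ZMod p, F l = (p : ℤ) * (if j = k then 1 else 0) := by
    simp only [hF]
    rw [Finset.sum_sub_distrib]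
    have e1 : ∑ l : ZMod p, quadraticChar (ZMod p) (pt p j + l) * quadraticChar (ZMod p) (l + pt p k) =
        ∑ l : ZMod p, quadraticChar (ZMod p) (pt p j + l) * quadraticChar (ZMod p) (pt p k + l) :=
      Finset.sum_congr rfl fun l _ => by rw [add_comm l]
    have e2 : ∑ l : ZMod p, quadraticChar (ZMod p) (pt p j + l) * quadraticChar (ZMod p) (l - pt p k) =
        ∑ l : ZMod p, quadraticChar (ZMod p) (pt p j + l) * quadraticChar (ZMod p) (-pt p k + l) :=
      Finset.sum_congr rfl fun l _ => by rw [sub_eq_neg_add]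
    rw [e1, e2, sum_corr (ne_two1 hp), sum_corr (ne_two1 hp), if_neg (pt_ne_neg hp j k)]
    by_cases hjk : j = k
    · rw [if_pos (by rw [hjk]), if_pos hjk]; ring
    · rw [if_neg (fun h => hjk (pt_inj hp h)), if_neg hjk]; ring
  rw [h3, zero_add, h4] at h1
  rw [← h1, Matrix.smul_apply, Matrix.one_apply]
  rfl

include hp in
lemma B_sq : matB p m * matB p m =
    (p : ℤ) • (1 : Matrix _ _ ℤ) - (2 : ℤ) • (matU p m * (matU p m)ᵀ) := by
  ext j k
  rw [Matrix.mul_apply]
  simp only [matB, Matrix.of_apply]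
  set F : ZMod p → ℤ := fun l => quadraticChar (ZMod p) (pt p j + l) * quadraticChar (ZMod p) (l + pt p k) +
    quadraticChar (ZMod p) (pt p j + l) * quadraticChar (ZMod p) (l - pt p k) with hF
  have h1 := fold hp F
  have h2 : ∀ l : Fin (2 * m), F (pt p l) + F (-pt p l) =
      (quadraticChar (ZMod p) (pt p j + pt p l) + quadraticChar (ZMod p) (pt p j - pt p l)) *
        (quadraticChar (ZMod p) (pt p l + pt p k) + quadraticChar (ZMod p) (pt p l - pt p k)) := by
    intro l
    simp only [hF]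
    have e1 : quadraticChar (ZMod p) (-pt p l + pt p k) = quadraticChar (ZMod p) (pt p l - pt p k) := by
      rw [← chi_neg1 hp]; congr 1; ring
    have e2 : quadraticChar (ZMod p) (-pt p l - pt p k) = quadraticChar (ZMod p) (pt p l + pt p k) := by
      rw [← chi_neg1 hp]; congr 1; ring
    rw [e1, e2, ← sub_eq_add_neg]
    ring
  rw [Finset.sum_congr rfl fun l _ => h2 l] at h1
  have h3 : F 0 = 2 * (quadraticChar (ZMod p) (pt p j) * quadraticChar (ZMod p) (pt p k)) := by
    simp only [hF]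
    rw [zero_add, zero_sub, chi_neg1 hp, add_zero]
    ring
  have h4 : ∑ l : ZMod p, F l = (p : ℤ) * (if j = k then 1 else 0) - 2 := by
    simp only [hF]
    rw [Finset.sum_add_distrib]
    have e1 : ∑ l : ZMod p, quadraticChar (ZMod p) (pt p j + l) * quadraticChar (ZMod p) (l + pt p k) =
        ∑ l : ZMod p, quadraticChar (ZMod p) (pt p j + l) * quadraticChar (ZMod p) (pt p k + l) :=
      Finset.sum_congr rfl fun l _ => by rw [add_comm l]
    have e2 : ∑ l : ZMod p, quadraticChar (ZMod p) (pt p j + l) * quadraticChar (ZMod p) (l - pt p k) =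
        ∑ l : ZMod p, quadraticChar (ZMod p) (pt p j + l) * quadraticChar (ZMod p) (-pt p k + l) :=
      Finset.sum_congr rfl fun l _ => by rw [sub_eq_neg_add]
    rw [e1, e2, sum_corr (ne_two1 hp), sum_corr (ne_two1 hp), if_neg (pt_ne_neg hp j k)]
    by_cases hjk : j = k
    · rw [if_pos (by rw [hjk]), if_pos hjk]; ring
    · rw [if_neg (fun h => hjk (pt_inj hp h)), if_neg hjk]; ring
  rw [h3, h4] at h1
  have h5 : (matU p m * (matU p m)ᵀ) j k = 1 + quadraticChar (ZMod p) (pt p j) * quadraticChar (ZMod p) (pt p k) := by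
    rw [Matrix.mul_apply, Fin.sum_univ_two]
    simp [matU]
  rw [Matrix.sub_apply, Matrix.smul_apply, Matrix.one_apply, Matrix.smul_apply, h5, smul_eq_mul,
    smul_eq_mul]
  linarith

/-- the swap matrix -/
def matS (R : Type*) [CommRing R] : Matrix (Fin 2) (Fin 2) R := !![0, 1; 1, 0]

include hp in
lemma B_mul_U : matB p m * matU p m = -(matU p m * matS ℤ) := by
  ext j i
  rw [Matrix.mul_apply, Matrix.neg_apply, Matrix.mul_apply, Fin.sum_univ_two]
  fin_cases i
  · simp only [matB, matU, matS, Matrix.of_apply, Fin.mk_one, Fin.zero_eta, Matrix.cons_val_zero,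
      Matrix.cons_val_one, mul_one, mul_zero, Matrix.cons_val', Matrix.cons_val_fin_one,
      zero_add]
    have h1 := fold hp (fun l => quadraticChar (ZMod p) (pt p j + l))
    rw [sum_chi_add (ne_two1 hp), add_zero] at h1
    simp only [← sub_eq_add_neg] at h1
    linarith
  · simp only [matB, matU, matS, Matrix.of_apply, Fin.mk_one, Fin.zero_eta, Matrix.cons_val_zero,
      Matrix.cons_val_one, mul_one, mul_zero, Matrix.cons_val', Matrix.cons_val_fin_one,
      add_zero]
    have h1 := fold hp (fun l => quadraticChar (ZMod p) (pt p j + l) * quadraticChar (ZMod p) (0 + l))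
    rw [sum_corr (ne_two1 hp), if_neg (pt_ne_zero hp j)] at h1
    simp only [← sub_eq_add_neg, add_zero, zero_add, MulChar.map_zero, mul_zero, chi_neg1 hp,
      zero_sub] at h1
    simp only [add_mul]
    linarith

include hp in
lemma U_gram : (matU p m)ᵀ * matU p m = (2 * m : ℤ) • (1 : Matrix (Fin 2) (Fin 2) ℤ) := by
  have h1 : ∑ k : Fin (2 * m), quadraticChar (ZMod p) (pt p k) = 0 := by
    have h1 := fold hp (fun l => quadraticChar (ZMod p) l)
    rw [sum_chi (ne_two1 hp)] at h1
    simp only [chi_neg1 hp, MulChar.map_zero, zero_add, ← two_mul, ← Finset.mul_sum] at h1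
    linarith
  have h2 : ∀ k : Fin (2 * m), quadraticChar (ZMod p) (pt p k) * quadraticChar (ZMod p) (pt p k) = 1 := by
    intro k
    have := quadraticChar_sq_one (pt_ne_zero hp k)
    rwa [pow_two] at this
  ext i i'
  rw [Matrix.mul_apply, Matrix.smul_apply, Matrix.one_apply]
  fin_cases i <;> fin_cases i'
  · simp [matU]
  · simpa [matU] using h1
  · simpa [matU] using h1
  · have h3 : ∀ k : Fin (2 * m), (matU p m)ᵀ 1 k * matU p m k 1 = 1 := fun k => h2 k
    show ∑ k : Fin (2 * m), (matU p m)ᵀ 1 k * matU p m k 1 = _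
    rw [Finset.sum_congr rfl fun k _ => h3 k]
    simp

end facts

/-- `A_p = (-p)^{(p-1)/4}` -/
lemma det_A (hp : p = 2 * (2 * m) + 1) : (matA p (2 * m)).det = (-(p : ℤ)) ^ m := by
  have h1 := det_of_sq (p := p) ((matA p (2 * m)).map (Int.castRingHom ℚ)) (by
    rw [← Matrix.map_mul, A_sq hp]
    ext j k
    simp only [Matrix.map_apply, Matrix.smul_apply, Matrix.one_apply, smul_eq_mul]
    split_ifs <;> simp)
  have h2 : (((matA p (2 * m)).det : ℤ) : ℚ) = (-(p : ℚ)) ^ m := by
    rw [← h1]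
    exact RingHom.map_det (Int.castRingHom ℚ) _
  exact_mod_cast h2

/-- the determinant of a rank two perturbation of `B` -/
lemma det_perturb {R : Type*} [CommRing R] (hp : p = 2 * (2 * m) + 1) (C : Matrix (Fin 2) (Fin 2) R) :
    ((matB p m).map (Int.castRingHom R) + (matU p m).map (Int.castRingHom R) * C *
      ((matU p m).map (Int.castRingHom R))ᵀ).det =
    ((matB p m).det : R) * (1 - (2 * m : R) • (matS R * C)).det := by
  set B := (matB p m).map (Int.castRingHom R) with hB
  set U := (matU p m).map (Int.castRingHom R) with hU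
  have hS : matS R * matS R = 1 := by
    ext i j
    fin_cases i <;> fin_cases j <;> simp [matS, Matrix.mul_apply, Fin.sum_univ_two]
  have hSm : (matS ℤ).map (Int.castRingHom R) = matS R := by
    ext i j
    fin_cases i <;> fin_cases j <;> simp [matS]
  have h1 : B * U = -(U * matS R) := by
    rw [hB, hU, ← Matrix.map_mul, B_mul_U hp, ← hSm, ← Matrix.map_mul]
    ext i j
    simp
  have h2 : Uᵀ * U = (2 * m : R) • (1 : Matrix (Fin 2) (Fin 2) R) := by
    rw [hU, ← Matrix.transpose_map, ← Matrix.map_mul, U_gram hp]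
    ext i j
    simp only [Matrix.map_apply, Matrix.smul_apply, Matrix.one_apply, smul_eq_mul]
    split_ifs <;> simp
  have h3 : B + U * C * Uᵀ = B * (1 - U * (matS R * C * Uᵀ)) := by
    rw [mul_sub, mul_one, ← Matrix.mul_assoc, h1, Matrix.neg_mul, sub_neg_eq_add,
      Matrix.mul_assoc U (matS R), ← Matrix.mul_assoc (matS R) (matS R * C),
      ← Matrix.mul_assoc (matS R) (matS R), hS, Matrix.one_mul, Matrix.mul_assoc]
  rw [h3, Matrix.det_mul, Matrix.det_one_sub_mul_comm, Matrix.mul_assoc, h2]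
  congr 1
  · exact (RingHom.map_det (Int.castRingHom R) _).symm
  · rw [Matrix.mul_smul, Matrix.mul_one]

/-- `det B = - (-p)^{(p-5)/4}` -/
lemma det_B (hm : 0 < m) (hp : p = 2 * (2 * m) + 1) : (matB p m).det = -(-(p : ℤ)) ^ (m - 1) := by
  have hpr : p.Prime := Fact.out
  have hp0 : (p : ℚ) ≠ 0 := by exact_mod_cast hpr.ne_zero
  have hm0 : (m : ℚ) ≠ 0 := by exact_mod_cast hm.ne'
  have hpm : (p : ℚ) = 4 * m + 1 := by rw [hp]; push_cast; ring
  set B := (matB p m).map (Int.castRingHom ℚ) with hB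
  set U := (matU p m).map (Int.castRingHom ℚ) with hU
  set T : Matrix (Fin 2) (Fin 2) ℚ := !![0, (p : ℚ); 1, 0] with hT
  set C : Matrix (Fin 2) (Fin 2) ℚ := (1 / (2 * m : ℚ)) • (matS ℚ + T) with hC
  have hBU : B * U = -(U * matS ℚ) := by
    have hSm : (matS ℤ).map (Int.castRingHom ℚ) = matS ℚ := by
      ext i j
      fin_cases i <;> fin_cases j <;> simp [matS]
    rw [hB, hU, ← Matrix.map_mul, B_mul_U hp, ← hSm, ← Matrix.map_mul]
    ext i j
    simp
  have hBt : Bᵀ = B := by
    ext j k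
    simp only [hB, matB, Matrix.transpose_apply, Matrix.map_apply, Matrix.of_apply]
    rw [add_comm (pt p k), ← chi_neg1 hp (pt p k - pt p j), neg_sub]
  have hSt : (matS ℚ)ᵀ = matS ℚ := by
    ext i j
    fin_cases i <;> fin_cases j <;> simp [matS]
  have hUB : Uᵀ * B = -(matS ℚ * Uᵀ) := by
    have := congrArg Matrix.transpose hBU
    rw [Matrix.transpose_mul, hBt, Matrix.transpose_neg, Matrix.transpose_mul, hSt] at this
    exact this
  have hUU : Uᵀ * U = (2 * m : ℚ) • (1 : Matrix (Fin 2) (Fin 2) ℚ) := by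
    rw [hU, ← Matrix.transpose_map, ← Matrix.map_mul, U_gram hp]
    ext i j
    simp only [Matrix.map_apply, Matrix.smul_apply, Matrix.one_apply, smul_eq_mul]
    split_ifs <;> simp
  have hBB : B * B = (p : ℚ) • (1 : Matrix _ _ ℚ) - (2 : ℚ) • (U * Uᵀ) := by
    rw [hB, ← Matrix.map_mul, B_sq hp, hU, ← Matrix.transpose_map, ← Matrix.map_mul]
    ext i j
    simp only [Matrix.map_apply, Matrix.smul_apply, Matrix.one_apply, smul_eq_mul,
      Matrix.sub_apply]
    split_ifs <;> simp
  have hsq : (B + U * C * Uᵀ) * (B + U * C * Uᵀ) = (p : ℚ) • (1 : Matrix _ _ ℚ) := by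
    have e1 : B * (U * C * Uᵀ) = -(U * (matS ℚ * C) * Uᵀ) := by
      rw [← Matrix.mul_assoc, ← Matrix.mul_assoc, hBU]
      simp only [Matrix.neg_mul, Matrix.mul_assoc]
    have e2 : U * C * Uᵀ * B = -(U * (C * matS ℚ) * Uᵀ) := by
      rw [Matrix.mul_assoc, hUB]
      simp only [Matrix.mul_neg, Matrix.mul_assoc]
    have e3 : U * C * Uᵀ * (U * C * Uᵀ) = U * ((2 * m : ℚ) • (C * C)) * Uᵀ := by
      have : U * C * Uᵀ * (U * C * Uᵀ) = U * C * (Uᵀ * U) * C * Uᵀ := by
        simp only [Matrix.mul_assoc]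
      rw [this, hUU]
      simp only [Matrix.mul_smul, Matrix.smul_mul, Matrix.mul_one, Matrix.mul_assoc]
    have e4 : (2 : ℚ) • (U * Uᵀ) = U * ((2 : ℚ) • (1 : Matrix (Fin 2) (Fin 2) ℚ)) * Uᵀ := by
      simp
    have e5 : -((2 : ℚ) • (1 : Matrix (Fin 2) (Fin 2) ℚ)) - matS ℚ * C - C * matS ℚ +
        (2 * m : ℚ) • (C * C) = 0 := by
      rw [hC, hT, hpm]
      ext i j
      fin_cases i <;> fin_cases j <;>
        simp [matS, Matrix.mul_apply, Fin.sum_univ_two, Matrix.one_apply] <;> field_simp <;> ring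
    have e6 : (B + U * C * Uᵀ) * (B + U * C * Uᵀ) = (p : ℚ) • (1 : Matrix _ _ ℚ) +
        U * (-((2 : ℚ) • (1 : Matrix (Fin 2) (Fin 2) ℚ)) - matS ℚ * C - C * matS ℚ +
        (2 * m : ℚ) • (C * C)) * Uᵀ := by
      rw [add_mul, mul_add, mul_add, hBB, e1, e2, e3, e4]
      simp only [Matrix.mul_add, Matrix.add_mul, Matrix.mul_sub, Matrix.sub_mul, Matrix.mul_neg,
        Matrix.neg_mul]
      abel
    rw [e6, e5]
    simp
  have hdet := det_of_sq _ hsq
  rw [hB, hU, det_perturb hp] at hdet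
  have h1 : (1 - (2 * m : ℚ) • (matS ℚ * C)).det = p := by
    have e : (1 : Matrix (Fin 2) (Fin 2) ℚ) - (2 * m : ℚ) • (matS ℚ * C) = !![-1, 0; 0, -(p : ℚ)] := by
      rw [hC, hT]
      ext i j
      fin_cases i <;> fin_cases j <;>
        simp [matS, Matrix.mul_apply, Fin.sum_univ_two, Matrix.one_apply] <;> field_simp <;> ring
    rw [e, Matrix.det_fin_two_of]
    ring
  rw [h1] at hdet
  have h2 : ((matB p m).det : ℚ) = -(-(p : ℚ)) ^ (m - 1) := by
    apply mul_right_cancel₀ hp0
    rw [hdet]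
    obtain ⟨m', rfl⟩ : ∃ m', m = m' + 1 := ⟨m - 1, by omega⟩
    rw [add_tsub_cancel_right, pow_succ]
    ring
  exact_mod_cast h2


end One

end Q263.LD
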