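import Mathlib
import Pool.Agent.Q263.LD.Cls
import Pool.Agent.Q263.LD.One

/-! Legendre symbol determinants mixing `((j+k)/p)` and `((j-k)/p)`, `0 ≤ j,k ≤ (p-1)/2`. -/

set_option autoImplicit false

open Finset Matrix

namespace Q263.LD.Mixed

/-- the matrix of `D_p`: entries `x + ((j+k)/p) + ((j-k)/p) + (j/p) y + (k/p) z + (jk/p) w`,
`0 ≤ j,k ≤ n` -/
def matD (p n : ℕ) [Fact p.Prime] {R : Type*} [CommRing R] (x y z w : R) :
    Matrix (Fin (n + 1)) (Fin (n + 1)) R :=
  Matrix.of fun j k => x + (legendreSym p (((j : ℕ) : ℤ) + ((k : ℕ) : ℤ)) : R) +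
    (legendreSym p (((j : ℕ) : ℤ) - ((k : ℕ) : ℤ)) : R) +
    (legendreSym p ((j : ℕ) : ℤ) : R) * y + (legendreSym p ((k : ℕ) : ℤ) : R) * z +
    (legendreSym p (((j : ℕ) : ℤ) * ((k : ℕ) : ℤ)) : R) * w

/-- the matrix of `E_p`: entries `((j+k)/p) - ((j-k)/p) + (j/p) y + (k/p) z`, `0 ≤ j,k ≤ n` -/
def matE (p n : ℕ) [Fact p.Prime] {R : Type*} [CommRing R] (y z : R) :
    Matrix (Fin (n + 1)) (Fin (n + 1)) R :=
  Matrix.of fun j k => (legendreSym p (((j : ℕ) : ℤ) + ((k : ℕ) : ℤ)) : R) -
    (legendreSym p (((j : ℕ) : ℤ) - ((k : ℕ) : ℤ)) : R) +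
    (legendreSym p ((j : ℕ) : ℤ) : R) * y + (legendreSym p ((k : ℕ) : ℤ) : R) * z

open Q263.LD

variable {p : ℕ} [Fact p.Prime]

/-- reindexing -/
def eq0 (n : ℕ) : Fin n ⊕ Unit ≃ Fin (n + 1) :=
  ((finSuccEquiv n).trans (Equiv.optionEquivSumPUnit.{0} (Fin n))).symm

lemma eq0_inl {n : ℕ} (i : Fin n) : eq0 n (Sum.inl i) = i.succ := rfl

lemma eq0_inr {n : ℕ} (u : Unit) : eq0 n (Sum.inr u) = 0 := rfl

lemma leg_succ {n : ℕ} (j : Fin n) :
    legendreSym p (((j.succ : Fin (n + 1)) : ℕ) : ℤ) = quadraticChar (ZMod p) (pt p j) := by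
  rw [legendreSym, Int.cast_natCast, Fin.val_succ]
  rfl

lemma leg_succ_add {n : ℕ} (j k : Fin n) :
    legendreSym p ((((j.succ : Fin (n + 1)) : ℕ) : ℤ) + (((k.succ : Fin (n + 1)) : ℕ) : ℤ)) =
      quadraticChar (ZMod p) (pt p j + pt p k) := by
  rw [legendreSym, Int.cast_add, Int.cast_natCast, Int.cast_natCast, Fin.val_succ, Fin.val_succ]
  rfl

lemma leg_succ_sub {n : ℕ} (j k : Fin n) :
    legendreSym p ((((j.succ : Fin (n + 1)) : ℕ) : ℤ) - (((k.succ : Fin (n + 1)) : ℕ) : ℤ)) =
      quadraticChar (ZMod p) (pt p j - pt p k) := by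
  rw [legendreSym, Int.cast_sub, Int.cast_natCast, Int.cast_natCast, Fin.val_succ, Fin.val_succ]
  rfl

lemma leg_zero {n : ℕ} : legendreSym p (((0 : Fin (n + 1)) : ℕ) : ℤ) = 0 := by
  simp

/-- the sign character at a point, in a ring -/
def ch (p : ℕ) [Fact p.Prime] {n : ℕ} (R : Type*) [CommRing R] (k : Fin n) : R :=
  ((quadraticChar (ZMod p) (pt p k) : ℤ) : R)

/-- The general bordered determinant. -/
lemma bordered {R : Type*} [CommRing R] {n s : ℕ} (C : Matrix (Fin n) (Fin n) R)
    (P1 : Matrix (Fin n) (Fin s) R) (Q1 : Matrix (Fin s) (Fin n) R)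
    (Q2 : Matrix (Fin s) Unit R) (v : Matrix Unit (Fin n) R) (x : R)
    (M : Matrix (Fin (n + 1)) (Fin (n + 1)) R)
    (h11 : ∀ j k : Fin n, M j.succ k.succ = (C + C * P1 * Q1) j k + v () k)
    (h12 : ∀ j : Fin n, M j.succ 0 = (C * P1 * Q2) j () + x)
    (h21 : ∀ k : Fin n, M 0 k.succ = v () k) (h22 : M 0 0 = x) :
    M.det = C.det * (Matrix.fromBlocks (1 + Q1 * P1) Q2 (v * P1)
      (Matrix.of fun _ _ : Unit => x)).det := by
  rw [← Matrix.det_submatrix_equiv_self (eq0 n) M]
  set K : Matrix (Fin n) Unit R := Matrix.of fun (_ : Fin n) (_ : Unit) => (1 : R) with hK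
  set X : Matrix Unit Unit R := Matrix.of fun _ _ : Unit => x - 1 with hX
  set PP : Matrix (Fin n ⊕ Unit) (Fin s ⊕ Unit) R := Matrix.fromBlocks P1 0 0 1 with hPP
  set QQ : Matrix (Fin s ⊕ Unit) (Fin n ⊕ Unit) R := Matrix.fromBlocks Q1 Q2 v X with hQQ
  have h0 : PP * QQ = Matrix.fromBlocks (P1 * Q1) (P1 * Q2) v X := by
    rw [hPP, hQQ, Matrix.fromBlocks_multiply]
    simp
  have h0' : QQ * PP = Matrix.fromBlocks (Q1 * P1) Q2 (v * P1) X := by
    rw [hPP, hQQ, Matrix.fromBlocks_multiply]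
    simp
  have h1 : M.submatrix (eq0 n) (eq0 n) =
      Matrix.fromBlocks 1 K 0 1 * (Matrix.fromBlocks C 0 0 1 * (1 + PP * QQ)) := by
    rw [h0, ← Matrix.fromBlocks_one, Matrix.fromBlocks_add,
      Matrix.fromBlocks_multiply, Matrix.fromBlocks_multiply]
    simp only [Matrix.one_mul, Matrix.zero_mul, add_zero, zero_add]
    ext a b
    rcases a with j | u <;> rcases b with k | u'
    · rw [Matrix.submatrix_apply, eq0_inl, eq0_inl, h11, Matrix.fromBlocks_apply₁₁,
        Matrix.mul_add, Matrix.mul_one, Matrix.add_apply _ (K * v), Matrix.mul_assoc]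
      congr 1
      simp [Matrix.mul_apply, hK]
    · rw [Matrix.submatrix_apply, eq0_inl, eq0_inr, h12, Matrix.fromBlocks_apply₁₂,
        Matrix.add_apply, Matrix.mul_assoc]
      congr 1
      simp [Matrix.mul_apply, hK, hX]
    · rw [Matrix.submatrix_apply, eq0_inl, eq0_inr, h21, Matrix.fromBlocks_apply₂₁]
    · rw [Matrix.submatrix_apply, eq0_inr, h22, Matrix.fromBlocks_apply₂₂]
      simp [hX]
  rw [h1, Matrix.det_mul, Matrix.det_mul, Matrix.det_fromBlocks_zero₂₁,
    Matrix.det_fromBlocks_zero₂₁, Matrix.det_one_add_mul_comm, h0', ← Matrix.fromBlocks_one,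
    Matrix.fromBlocks_add]
  simp only [Matrix.det_one, one_mul, mul_one, zero_add]
  congr 3
  ext a b
  simp [hX]

lemma det_one_block {R : Type*} [CommRing R] (A : Matrix (Fin 1) (Fin 1) R)
    (B : Matrix (Fin 1) Unit R) (C : Matrix Unit (Fin 1) R) (D : Matrix Unit Unit R) :
    (Matrix.fromBlocks A B C D).det = A 0 0 * D () () - B 0 () * C () 0 := by
  rw [← Matrix.det_submatrix_equiv_self (eq0 1).symm, Matrix.det_fin_two]
  have e0 : (eq0 1).symm 0 = Sum.inr () := rfl
  have e1 : (eq0 1).symm 1 = Sum.inl 0 := rfl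
  simp only [Matrix.submatrix_apply, e0, e1, Matrix.fromBlocks_apply₁₁,
    Matrix.fromBlocks_apply₁₂, Matrix.fromBlocks_apply₂₁, Matrix.fromBlocks_apply₂₂]
  ring

lemma det_two_block {R : Type*} [CommRing R] (A : Matrix (Fin 2) (Fin 2) R)
    (B : Matrix (Fin 2) Unit R) (C : Matrix Unit (Fin 2) R) (D : Matrix Unit Unit R) :
    (Matrix.fromBlocks A B C D).det =
      D () () * (A 0 0 * A 1 1 - A 0 1 * A 1 0) - C () 0 * (B 0 () * A 1 1 - A 0 1 * B 1 ()) +
      C () 1 * (B 0 () * A 1 0 - A 0 0 * B 1 ()) := by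
  rw [← Matrix.det_submatrix_equiv_self (eq0 2).symm, Matrix.det_fin_three]
  have e0 : (eq0 2).symm 0 = Sum.inr () := rfl
  have e1 : (eq0 2).symm 1 = Sum.inl 0 := rfl
  have e2 : (eq0 2).symm 2 = Sum.inl 1 := rfl
  simp only [Matrix.submatrix_apply, e0, e1, e2, Matrix.fromBlocks_apply₁₁,
    Matrix.fromBlocks_apply₁₂, Matrix.fromBlocks_apply₂₁, Matrix.fromBlocks_apply₂₂]
  ring

section entries

variable {R : Type*} [CommRing R] {n : ℕ} (x y z w : R)

lemma matD_ss (j k : Fin n) : matD p n x y z w j.succ k.succ = x +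
    ((quadraticChar (ZMod p) (pt p j + pt p k) + quadraticChar (ZMod p) (pt p j - pt p k) : ℤ) : R) +
    ch p R j * y + ch p R k * z + ch p R j * ch p R k * w := by
  rw [matD, Matrix.of_apply, legendreSym.mul, leg_succ_add, leg_succ_sub, leg_succ, leg_succ,
    ch, ch]
  push_cast
  ring

lemma matD_s0 (j : Fin n) : matD p n x y z w j.succ 0 = x + 2 * ch p R j + ch p R j * y := by
  rw [matD, Matrix.of_apply, legendreSym.mul, leg_zero, leg_succ]
  simp only [Fin.val_zero, Nat.cast_zero, add_zero, sub_zero, leg_succ, ch]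
  push_cast
  ring

lemma matD_0s (k : Fin n) : matD p n x y z w 0 k.succ = x + ch p R k +
    ((quadraticChar (ZMod p) (-pt p k) : ℤ) : R) + ch p R k * z := by
  have e : legendreSym p (-(((k.succ : Fin (n + 1)) : ℕ) : ℤ)) =
      quadraticChar (ZMod p) (-pt p k) := by
    rw [legendreSym, Int.cast_neg, Int.cast_natCast, Fin.val_succ]
    rfl
  rw [matD, Matrix.of_apply, legendreSym.mul, leg_zero]
  simp only [Fin.val_zero, Nat.cast_zero, zero_add, zero_sub, e, leg_succ, ch]
  push_cast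
  ring

lemma matD_00 : matD p n x y z w 0 0 = x := by
  rw [matD, Matrix.of_apply]
  simp

end entries

/-- the case `p ≡ 3 (mod 4)` -/
theorem three {R : Type*} [CommRing R] {n : ℕ} (hp : p = 2 * n + 1) (hn : n % 2 = 1)
    (x y z w : R) : (matD p n x y z w).det = ((matC p n).det : R) *
      (p * x + (Sh p n : R) * ((y + 2) * z - w * x)) := by
  have hrow : ∀ j : Fin n, ∑ k, ((matC p n j k : ℤ) : R) = - ch p R j := by
    intro j
    have := congrArg (fun t : ℤ => (t : R)) (C_row hp hn j)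
    push_cast at this
    exact this
  have hS : ∑ k : Fin n, ch p R k = (Sh p n : R) := by
    rw [Sh]; push_cast; rfl
  have h1 := bordered ((matC p n).map (Int.castRingHom R))
    (Matrix.of fun (_ : Fin n) (_ : Fin 1) => (-1 : R))
    (Matrix.of fun (_ : Fin 1) (k : Fin n) => y + w * ch p R k)
    (Matrix.of fun (_ : Fin 1) (_ : Unit) => y + 2)
    (Matrix.of fun (_ : Unit) (k : Fin n) => x + z * ch p R k) x (matD p n x y z w) (by
      intro j k
      rw [matD_ss, Matrix.add_apply, Matrix.mul_apply, Finset.univ_unique, Finset.sum_singleton,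
        Matrix.mul_apply]
      simp only [Matrix.map_apply, Matrix.of_apply, mul_neg, mul_one, Finset.sum_neg_distrib,
        eq_intCast, hrow, neg_neg]
      rw [matC, Matrix.of_apply]
      ring) (by
      intro j
      rw [matD_s0, Matrix.mul_apply, Finset.univ_unique, Finset.sum_singleton, Matrix.mul_apply]
      simp only [Matrix.map_apply, Matrix.of_apply, mul_neg, mul_one, Finset.sum_neg_distrib,
        eq_intCast, hrow, neg_neg]
      ring) (by
      intro k
      rw [matD_0s, chi_neg3 hp hn, Matrix.of_apply, ch]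
      push_cast
      ring) (matD_00 x y z w)
  rw [h1, det_one_block]
  congr 1
  · exact (RingHom.map_det (Int.castRingHom R) _).symm
  · have hpR : (p : R) = 2 * (n : R) + 1 := by rw [hp]; push_cast; ring
    simp only [Matrix.add_apply, Matrix.one_apply_eq, Matrix.mul_apply, Matrix.of_apply, mul_neg,
      mul_one, Finset.sum_neg_distrib, Finset.sum_add_distrib, Finset.sum_const, Finset.card_univ,
      Fintype.card_fin, nsmul_eq_mul, ← Finset.mul_sum, hS, hpR]
    ring

/-- the case `p ≡ 1 (mod 4)` -/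
theorem one {R : Type*} [CommRing R] {m : ℕ} (hp : p = 2 * (2 * m) + 1)
    (x y z w : R) : (matD p (2 * m) x y z w).det = ((matB p m).det : R) * ((p : R) ^ 2 * x) := by
  have hU := B_mul_U (p := p) hp
  have hG := U_gram (p := p) hp
  have hrow : ∀ j : Fin (2 * m), ∑ k, ((matB p m j k : ℤ) : R) = - ch p R j := by
    intro j
    have h1 := congrFun (congrFun hU j) 0
    rw [Matrix.mul_apply, Matrix.neg_apply, Matrix.mul_apply, Fin.sum_univ_two] at h1
    simp only [matU, matS, Matrix.of_apply, Matrix.cons_val_zero, Matrix.cons_val_one,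
      Matrix.cons_val', Matrix.cons_val_fin_one, mul_one, mul_zero, zero_add] at h1
    have := congrArg (fun t : ℤ => (t : R)) h1
    push_cast at this
    exact this
  have hrow2 : ∀ j : Fin (2 * m), ∑ k, ((matB p m j k : ℤ) : R) * ch p R k = -1 := by
    intro j
    have h1 := congrFun (congrFun hU j) 1
    rw [Matrix.mul_apply, Matrix.neg_apply, Matrix.mul_apply, Fin.sum_univ_two] at h1
    simp only [matU, matS, Matrix.of_apply, Matrix.cons_val_zero, Matrix.cons_val_one,
      Matrix.cons_val', Matrix.cons_val_fin_one, mul_one, mul_zero, add_zero] at h1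
    have := congrArg (fun t : ℤ => (t : R)) h1
    push_cast at this
    exact this
  have hS : ∑ k : Fin (2 * m), ch p R k = 0 := by
    have h1 := congrFun (congrFun hG 0) 1
    rw [Matrix.mul_apply] at h1
    simp only [matU, Matrix.transpose_apply, Matrix.of_apply, Matrix.cons_val_zero,
      Matrix.cons_val_one, one_mul, Matrix.smul_apply, Matrix.one_apply, smul_eq_mul] at h1
    norm_num at h1
    have := congrArg (fun t : ℤ => (t : R)) h1
    push_cast at this
    exact this
  have hSS : ∀ k : Fin (2 * m), ch p R k * ch p R k = 1 := by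
    intro k
    have h1 := quadraticChar_sq_one (pt_ne_zero hp k)
    have := congrArg (fun t : ℤ => (t : R)) h1
    push_cast at this
    rw [ch, ← pow_two]
    exact this
  have h1 := bordered ((matB p m).map (Int.castRingHom R))
    (Matrix.of fun (k : Fin (2 * m)) (i : Fin 2) => ![(-1 : R), ch p R k] i)
    (Matrix.of fun (i : Fin 2) (k : Fin (2 * m)) => ![y + w * ch p R k, 2 * ch p R k] i)
    (Matrix.of fun (i : Fin 2) (_ : Unit) => ![y + 2, 0] i)
    (Matrix.of fun (_ : Unit) (k : Fin (2 * m)) => x + (z + 2) * ch p R k) x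
    (matD p (2 * m) x y z w) (by
      intro j k
      rw [matD_ss, Matrix.add_apply, Matrix.mul_apply, Fin.sum_univ_two, Matrix.mul_apply,
        Matrix.mul_apply]
      simp only [Matrix.map_apply, Matrix.of_apply, mul_neg, mul_one, Finset.sum_neg_distrib,
        eq_intCast, Matrix.cons_val_zero, Matrix.cons_val_one, Matrix.cons_val_fin_one, hrow,
        hrow2, neg_neg]
      rw [matB, Matrix.of_apply]
      ring) (by
      intro j
      rw [matD_s0, Matrix.mul_apply, Fin.sum_univ_two, Matrix.mul_apply, Matrix.mul_apply]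
      simp only [Matrix.map_apply, Matrix.of_apply, mul_neg, mul_one, Finset.sum_neg_distrib,
        eq_intCast, Matrix.cons_val_zero, Matrix.cons_val_one, Matrix.cons_val_fin_one, hrow,
        hrow2, neg_neg]
      ring) (by
      intro k
      rw [matD_0s, chi_neg1 hp, Matrix.of_apply, ch]
      ring) (matD_00 x y z w)
  rw [h1, det_two_block]
  congr 1
  · exact (RingHom.map_det (Int.castRingHom R) _).symm
  · have hpR : (p : R) = 2 * (2 * (m : R)) + 1 := by rw [hp]; push_cast; ring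
    have h01 : (1 : Matrix (Fin 2) (Fin 2) R) 0 1 = 0 := Matrix.one_apply_ne (by decide)
    have h10 : (1 : Matrix (Fin 2) (Fin 2) R) 1 0 = 0 := Matrix.one_apply_ne (by decide)
    simp only [Matrix.add_apply, Matrix.one_apply_eq, Matrix.mul_apply, Matrix.of_apply, mul_neg,
      mul_one, Finset.sum_neg_distrib, Finset.sum_add_distrib, Finset.sum_const, Finset.card_univ,
      Fintype.card_fin, nsmul_eq_mul, ← Finset.mul_sum, hS, hpR, Matrix.cons_val_zero,
      Matrix.cons_val_one, Matrix.cons_val_fin_one, add_mul, mul_assoc, hSS, h01, h10]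
    push_cast
    ring

/-! ## The determinant `E_p` -/

/-- the quadratic form `W` -/
def Wq (p n : ℕ) [Fact p.Prime] : ℤ := ∑ j : Fin n, ∑ k : Fin n,
  quadraticChar (ZMod p) (pt p j) * matA p n j k * quadraticChar (ZMod p) (pt p k)

/-- `4` divides a symmetric double sum with even off-diagonal entries and diagonal sum zero -/
lemma four_dvd {n : ℕ} (F : Fin n → Fin n → ℤ) (hs : ∀ j k, F j k = F k j)
    (hd : ∑ j, F j j = 0) (he : ∀ j k, j ≠ k → (2 : ℤ) ∣ F j k) :
    (4 : ℤ) ∣ ∑ j, ∑ k, F j k := by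
  have h1 : ∑ j, ∑ k, F j k = ∑ j, F j j + 2 * ∑ j, ∑ k ∈ Finset.Ioi j, F j k := by
    have e1 : ∀ j, ∑ k, F j k = F j j + ∑ k ∈ Finset.Ioi j, F j k + ∑ k ∈ Finset.Iio j, F j k := by
      intro j
      have e2 : (Finset.univ : Finset (Fin n)) = insert j (Finset.Ioi j ∪ Finset.Iio j) := by
        ext k
        simp only [Finset.mem_univ, Finset.mem_insert, Finset.mem_union, Finset.mem_Ioi,
          Finset.mem_Iio, true_iff]
        rcases lt_trichotomy j k with h | h | h
        · exact Or.inr (Or.inl h)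
        · exact Or.inl h.symm
        · exact Or.inr (Or.inr h)
      rw [e2, Finset.sum_insert (by simp), Finset.sum_union]
      · ring
      · rw [Finset.disjoint_left]
        intro k hk1 hk2
        rw [Finset.mem_Ioi] at hk1
        rw [Finset.mem_Iio] at hk2
        exact lt_asymm hk1 hk2
    rw [Finset.sum_congr rfl fun j _ => e1 j, Finset.sum_add_distrib, Finset.sum_add_distrib]
    have e3 : ∑ j, ∑ k ∈ Finset.Iio j, F j k = ∑ j, ∑ k ∈ Finset.Ioi j, F j k := by
      have e4 : ∀ G : Fin n → Fin n → ℤ, ∑ j, ∑ k ∈ Finset.Iio j, G j k =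
          ∑ j, ∑ k, if k < j then G j k else 0 := by
        intro G
        refine Finset.sum_congr rfl fun j _ => ?_
        rw [← Finset.sum_filter]
        refine Finset.sum_congr ?_ fun _ _ => rfl
        ext k; simp
      have e5 : ∀ G : Fin n → Fin n → ℤ, ∑ j, ∑ k ∈ Finset.Ioi j, G j k =
          ∑ j, ∑ k, if j < k then G j k else 0 := by
        intro G
        refine Finset.sum_congr rfl fun j _ => ?_
        rw [← Finset.sum_filter]
        refine Finset.sum_congr ?_ fun _ _ => rfl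
        ext k; simp
      rw [e4, e5, Finset.sum_comm]
      refine Finset.sum_congr rfl fun j _ => Finset.sum_congr rfl fun k _ => ?_
      rw [hs]
    rw [e3]
    ring
  rw [h1, hd, zero_add]
  have h2 : (2 : ℤ) ∣ ∑ j, ∑ k ∈ Finset.Ioi j, F j k := by
    refine Finset.dvd_sum fun j _ => Finset.dvd_sum fun k hk => he j k ?_
    rw [Finset.mem_Ioi] at hk
    exact hk.ne
  obtain ⟨c, hc⟩ := h2
  exact ⟨c, by rw [hc]; ring⟩

lemma four_dvd_Wq {m : ℕ} (hp : p = 2 * (2 * m) + 1) : (4 : ℤ) ∣ Wq p (2 * m) := by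
  have hG := U_gram (p := p) hp
  have hS : ∑ k : Fin (2 * m), quadraticChar (ZMod p) (pt p k) = 0 := by
    have h1 := congrFun (congrFun hG 0) 1
    rw [Matrix.mul_apply] at h1
    simp only [matU, Matrix.transpose_apply, Matrix.of_apply, Matrix.cons_val_zero,
      Matrix.cons_val_one, one_mul, Matrix.smul_apply, Matrix.one_apply, smul_eq_mul] at h1
    norm_num at h1
    exact h1
  have hA : ∀ j k : Fin (2 * m), matA p (2 * m) j k = matA p (2 * m) k j := by
    intro j k
    simp only [matA, Matrix.of_apply]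
    rw [add_comm (pt p j), ← chi_neg1 hp (pt p j - pt p k), neg_sub]
  refine four_dvd _ ?_ ?_ ?_
  · intro j k
    rw [hA j k]
    ring
  · have e1 : ∀ j : Fin (2 * m), quadraticChar (ZMod p) (pt p j) * matA p (2 * m) j j *
        quadraticChar (ZMod p) (pt p j) =
        quadraticChar (ZMod p) 2 * quadraticChar (ZMod p) (pt p j) := by
      intro j
      have h1 := quadraticChar_sq_one (pt_ne_zero hp j)
      rw [matA, Matrix.of_apply, sub_self, MulChar.map_zero, sub_zero, ← two_mul, map_mul]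
      calc quadraticChar (ZMod p) (pt p j) * (quadraticChar (ZMod p) 2 *
          quadraticChar (ZMod p) (pt p j)) * quadraticChar (ZMod p) (pt p j) =
          quadraticChar (ZMod p) 2 * quadraticChar (ZMod p) (pt p j) *
            quadraticChar (ZMod p) (pt p j) ^ 2 := by ring
        _ = _ := by rw [h1, mul_one]
    rw [Finset.sum_congr rfl fun j _ => e1 j, ← Finset.mul_sum, hS, mul_zero]
  · intro j k hjk
    refine Dvd.dvd.mul_right (Dvd.dvd.mul_left ?_ _) _
    rw [matA, Matrix.of_apply]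
    have e1 : pt p j + pt p k ≠ 0 := by
      intro h
      exact pt_ne_neg hp j k (eq_neg_of_add_eq_zero_left h)
    have e2 : pt p j - pt p k ≠ 0 := by
      intro h
      exact hjk (pt_inj hp (sub_eq_zero.mp h))
    rcases quadraticChar_dichotomy e1 with h1 | h1 <;>
      rcases quadraticChar_dichotomy e2 with h2 | h2 <;> rw [h1, h2] <;> norm_num

/-- the integer bordered matrix -/
def matE0 (p n : ℕ) [Fact p.Prime] : Matrix (Fin n ⊕ Unit) (Fin n ⊕ Unit) ℤ :=
  Matrix.fromBlocks (matA p n) (Matrix.of fun j _ => quadraticChar (ZMod p) (pt p j))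
    (Matrix.of fun _ k => quadraticChar (ZMod p) (pt p k)) 0

lemma det_E0 {m : ℕ} (hm0 : 0 < m) (hp : p = 2 * (2 * m) + 1) :
    (matE0 p (2 * m)).det = (-(p : ℤ)) ^ (m - 1) * Wq p (2 * m) := by
  have hpr : p.Prime := Fact.out
  have hp0 : (p : ℚ) ≠ 0 := by exact_mod_cast hpr.ne_zero
  have hA := A_sq (p := p) hp
  have hdA := det_A (p := p) hp
  set A' : Matrix (Fin (2 * m)) (Fin (2 * m)) ℚ := (matA p (2 * m)).map (Int.castRingHom ℚ) with hA'
  have h1 : A' * A' = (p : ℚ) • (1 : Matrix _ _ ℚ) := by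
    rw [hA', ← Matrix.map_mul, hA]
    ext i j
    simp only [Matrix.map_apply, Matrix.smul_apply, Matrix.one_apply, smul_eq_mul]
    split_ifs <;> simp
  have h2 : A' * ((1 / p : ℚ) • A') = 1 := by
    rw [Matrix.mul_smul, h1, smul_smul, one_div, inv_mul_cancel₀ hp0, one_smul]
  have h2' : ((1 / p : ℚ) • A') * A' = 1 := by
    rw [Matrix.smul_mul, h1, smul_smul, one_div, inv_mul_cancel₀ hp0, one_smul]
  let inv : Invertible A' := ⟨(1 / p : ℚ) • A', h2', h2⟩
  have h3 : ⅟A' = (1 / p : ℚ) • A' := rfl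
  have h4 : (((matE0 p (2 * m)).det : ℤ) : ℚ) = A'.det * (-(1 / p) * (Wq p (2 * m) : ℚ)) := by
    have e0 := RingHom.map_det (Int.castRingHom ℚ) (matE0 p (2 * m))
    rw [eq_intCast] at e0
    rw [e0, RingHom.mapMatrix_apply, matE0, Matrix.fromBlocks_map, ← hA',
      Matrix.det_fromBlocks₁₁, h3]
    congr 1
    rw [Matrix.det_unique]
    rw [Matrix.sub_apply, Matrix.mul_apply]
    simp only [Matrix.mul_apply, Matrix.map_apply, Matrix.of_apply, Matrix.smul_apply,
      smul_eq_mul, Matrix.zero_apply, map_zero, zero_sub, eq_intCast, hA']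
    rw [Wq]
    push_cast
    rw [Finset.sum_comm, Finset.mul_sum, ← Finset.sum_neg_distrib]
    refine Finset.sum_congr rfl fun k _ => ?_
    rw [Finset.mul_sum, Finset.sum_mul, ← Finset.sum_neg_distrib]
    refine Finset.sum_congr rfl fun j _ => ?_
    ring
  have h5 : A'.det = (-(p : ℚ)) ^ m := by
    have e0 := RingHom.map_det (Int.castRingHom ℚ) (matA p (2 * m))
    rw [eq_intCast, hdA] at e0
    rw [hA']
    rw [RingHom.mapMatrix_apply] at e0
    rw [← e0]
    push_cast
    rfl
  rw [h5] at h4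
  have h6 : (((matE0 p (2 * m)).det : ℤ) : ℚ) = (((-(p : ℤ)) ^ (m - 1) * Wq p (2 * m) : ℤ) : ℚ) := by
    rw [h4]
    obtain ⟨m', rfl⟩ : ∃ m', m = m' + 1 := ⟨m - 1, by omega⟩
    rw [add_tsub_cancel_right, pow_succ]
    push_cast
    field_simp
  exact_mod_cast h6

section entriesE

variable {R : Type*} [CommRing R] {n : ℕ} (y z : R)

lemma matE_ss (j k : Fin n) : matE p n y z j.succ k.succ = ((matA p n j k : ℤ) : R) +
    ch p R j * y + ch p R k * z := by
  rw [matE, Matrix.of_apply, leg_succ_add, leg_succ_sub, leg_succ, leg_succ, matA,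
    Matrix.of_apply, ch, ch]
  push_cast
  ring

lemma matE_s0 (j : Fin n) : matE p n y z j.succ 0 = ch p R j * y := by
  rw [matE, Matrix.of_apply, leg_zero]
  simp only [Fin.val_zero, Nat.cast_zero, add_zero, sub_zero, leg_succ, ch]
  push_cast
  ring

lemma matE_0s {m : ℕ} (hp : p = 2 * (2 * m) + 1) (k : Fin (2 * m)) :
    matE p (2 * m) y z 0 k.succ = ch p R k * z := by
  have e : legendreSym p (-(((k.succ : Fin (2 * m + 1)) : ℕ) : ℤ)) =
      quadraticChar (ZMod p) (pt p k) := by
    rw [legendreSym, Int.cast_neg, Int.cast_natCast, Fin.val_succ, chi_neg1 hp]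
    rfl
  rw [matE, Matrix.of_apply, leg_zero]
  simp only [Fin.val_zero, Nat.cast_zero, zero_add, zero_sub, e, leg_succ, ch]
  push_cast
  ring

lemma matE_00 : matE p n y z 0 0 = 0 := by
  rw [matE, Matrix.of_apply]
  simp

end entriesE

/-- the factorisation of `E_p` -/
theorem det_matE {R : Type*} [CommRing R] {m : ℕ} (hp : p = 2 * (2 * m) + 1) (y z : R) :
    (matE p (2 * m) y z).det = y * z * ((matE0 p (2 * m)).det : R) := by
  rw [← Matrix.det_submatrix_equiv_self (eq0 (2 * m)) (matE p (2 * m) y z)]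
  set K : Matrix (Fin (2 * m)) Unit R := Matrix.of fun _ _ => (1 : R) with hK
  set K' : Matrix Unit (Fin (2 * m)) R := Matrix.of fun _ _ => (1 : R) with hK'
  set A := (matA p (2 * m)).map (Int.castRingHom R) with hA
  set u : Matrix (Fin (2 * m)) Unit R := Matrix.of fun j _ => ch p R j with hu
  set v : Matrix Unit (Fin (2 * m)) R := Matrix.of fun _ k => ch p R k with hv
  set Y : Matrix Unit Unit R := Matrix.of fun _ _ => y with hY
  set Z : Matrix Unit Unit R := Matrix.of fun _ _ => z with hZ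
  have h1 : (matE p (2 * m) y z).submatrix (eq0 (2 * m)) (eq0 (2 * m)) =
      Matrix.fromBlocks 1 K 0 1 * ((Matrix.fromBlocks 1 0 0 Z *
        (Matrix.fromBlocks A u v 0 * Matrix.fromBlocks 1 0 0 Y)) *
        Matrix.fromBlocks 1 0 K' 1) := by
    simp only [Matrix.fromBlocks_multiply, Matrix.one_mul, Matrix.zero_mul, add_zero, zero_add,
      Matrix.mul_zero, Matrix.mul_one]
    ext a b
    rcases a with j | s <;> rcases b with k | t
    · rw [Matrix.submatrix_apply, eq0_inl, eq0_inl, matE_ss, Matrix.fromBlocks_apply₁₁]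
      simp [Matrix.mul_apply, hK, hK', hA, hu, hv, hY, hZ]
      ring
    · rw [Matrix.submatrix_apply, eq0_inl, eq0_inr, matE_s0, Matrix.fromBlocks_apply₁₂]
      simp [Matrix.mul_apply, hu, hY]
    · rw [Matrix.submatrix_apply, eq0_inl, eq0_inr, matE_0s y z hp, Matrix.fromBlocks_apply₂₁]
      simp [Matrix.mul_apply, hv, hZ]
      ring
    · rw [Matrix.submatrix_apply, eq0_inr, matE_00, Matrix.fromBlocks_apply₂₂]
      simp
  have h2 : (Matrix.fromBlocks A u v 0).det = ((matE0 p (2 * m)).det : R) := by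
    have e0 := RingHom.map_det (Int.castRingHom R) (matE0 p (2 * m))
    rw [eq_intCast] at e0
    rw [e0, RingHom.mapMatrix_apply, matE0, Matrix.fromBlocks_map]
    congr 2
    ext a b
    simp
  rw [h1, Matrix.det_mul, Matrix.det_mul, Matrix.det_mul, Matrix.det_mul, h2,
    Matrix.det_fromBlocks_zero₂₁, Matrix.det_fromBlocks_zero₂₁, Matrix.det_fromBlocks_zero₂₁,
    Matrix.det_fromBlocks_zero₁₂]
  simp only [Matrix.det_one, Matrix.det_unique, hY, hZ, Matrix.of_apply, Matrix.one_apply_eq]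
  ring

lemma chi2_pow {m : ℕ} (hm0 : 0 < m) (hp : p = 2 * (2 * m) + 1) :
    -(-(p : ℤ)) ^ (m - 1) = legendreSym p 2 * (p : ℤ) ^ (m - 1) := by
  have h2 : p ≠ 2 := by omega
  have h3 : legendreSym p 2 = ZMod.χ₈ p := legendreSym.at_two h2
  rw [h3, neg_pow, ← ZMod.natCast_mod p 8]
  rcases Nat.even_or_odd (m - 1) with e | e
  · have e1 := Nat.even_iff.mp e
    rw [show p % 8 = 5 by omega, e.neg_one_pow]
    have : ZMod.χ₈ ((5 : ℕ) : ZMod 8) = -1 := rfl
    rw [this]
    ring
  · have e1 := Nat.odd_iff.mp e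
    rw [show p % 8 = 1 by omega, e.neg_one_pow]
    have : ZMod.χ₈ ((1 : ℕ) : ZMod 8) = 1 := rfl
    rw [this]
    ring

/-- the determinant `D_p` -/
theorem detD (p : ℕ) [Fact p.Prime] (h3 : 3 < p) :
    (p % 4 = 1 → ∀ (R : Type*) [CommRing R] (x y z w : R),
      (matD p ((p - 1) / 2) x y z w).det =
        (legendreSym p 2 : R) * (p : R) ^ ((p + 3) / 4) * x) ∧
    (p % 4 = 3 → ∀ (K : Type*) [Field K] [NumberField K], Module.finrank ℚ K = 2 →
      (∃ r : K, r ^ 2 = -(p : K)) → ∀ (R : Type*) [CommRing R] (x y z w : R),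
      (matD p ((p - 1) / 2) x y z w).det =
        (-1) ^ ((NumberField.classNumber K - 1) / 2) * (p : R) ^ ((p - 3) / 4) *
        ((p : R) * x + (2 - (legendreSym p 2 : R)) * (NumberField.classNumber K : R) *
          ((y + 2) * z - w * x))) := by
  refine ⟨?_, ?_⟩
  · intro h4 R _ x y z w
    obtain ⟨m, hm⟩ : ∃ m, p = 2 * (2 * m) + 1 := ⟨p / 4, by omega⟩
    have hm0 : 0 < m := by omega
    rw [show (p - 1) / 2 = 2 * m by omega, show (p + 3) / 4 = m - 1 + 2 by omega,
      one hm, det_B hm0 hm, chi2_pow hm0 hm, pow_add]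
    push_cast
    ring
  · rintro h4 K _ _ hK ⟨r, hr⟩ R _ x y z w
    obtain ⟨n, hn⟩ : ∃ n, p = 2 * n + 1 := ⟨p / 2, by omega⟩
    have hn2 : n % 2 = 1 := by omega
    rw [show (p - 1) / 2 = n by omega, three hn hn2, C_det_cls hn hn2 h3 K hK r hr,
      Sh_eq hn hn2 h3 K hK r hr, show (p - 3) / 4 = (n - 1) / 2 by omega]
    push_cast
    ring

/-- the determinant `E_p` -/
theorem detE (p : ℕ) [Fact p.Prime] (h4 : p % 4 = 1) :
    ∃ c : ℤ, ∀ (R : Type*) [CommRing R] (y z : R),
      (matE p ((p - 1) / 2) y z).det = 4 * (p : R) ^ ((p - 5) / 4) * (c : R) * (y * z) := by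
  have hpr : p.Prime := Fact.out
  obtain ⟨m, hm⟩ : ∃ m, p = 2 * (2 * m) + 1 := ⟨p / 4, by omega⟩
  have hm0 : 0 < m := by
    have := hpr.two_le
    omega
  obtain ⟨c, hc⟩ := four_dvd_Wq (p := p) hm
  refine ⟨(-1) ^ (m - 1) * c, fun R _ y z => ?_⟩
  rw [show (p - 1) / 2 = 2 * m by omega, show (p - 5) / 4 = m - 1 by omega, det_matE hm,
    det_E0 hm0 hm, hc, neg_pow]
  push_cast
  ring

end Q263.LD.Mixed
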