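import Mathlib
import Pool.Agent.Q263.LD.Gen

/-! The determinant identity for quadratic nonresidues. -/

set_option autoImplicit false

open Finset Matrix

namespace Q263.LD

section

variable {p : ℕ} [Fact p.Prime] {v : ℕ} (hp : p = 4 * v + 1) {g : ZMod p}
  (hg : IsPrimitiveRoot g (p - 1)) [NeZero (2 * v)] (ψ : AddChar (ZMod (2 * v)) (ZMod p))
  (hψ : ∀ u : ZMod (2 * v), ψ u = (g ^ 2) ^ u.val)

/-- product of the values `1 - φ k` -/
lemma prod_one_sub {K : Type*} [Field K] (hv : 0 < v) (φ : AddChar (ZMod (2 * v)) K) {ζ : K}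
    (hζ : IsPrimitiveRoot ζ (2 * v)) (hφ : ∀ u : ZMod (2 * v), φ u = ζ ^ u.val) :
    ∏ k : NZ (2 * v), (1 - φ k) = (2 * v : ℕ) := by
  have h1 : ∏ k : NZ (2 * v), (1 - φ k) = ∏ k ∈ range (2 * v - 1), (1 - ζ ^ (k + 1)) := by
    symm
    apply Finset.prod_bij (fun (i : ℕ) (hi : i ∈ range (2 * v - 1)) =>
      (⟨((i + 1 : ℕ) : ZMod (2 * v)), by
        rw [Finset.mem_range] at hi
        intro h
        rw [ZMod.natCast_eq_zero_iff] at h
        have := Nat.le_of_dvd (by omega) h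
        omega⟩ : NZ (2 * v)))
    · intro a _; exact Finset.mem_univ _
    · intro a ha b hb hab
      rw [Finset.mem_range] at ha hb
      have := congrArg (fun x : NZ (2 * v) => (x : ZMod (2 * v)).val) hab
      simp only at this
      rw [ZMod.val_natCast_of_lt (by omega), ZMod.val_natCast_of_lt (by omega)] at this
      omega
    · intro b _
      have hb := b.2
      have h2 : 0 < (b : ZMod (2 * v)).val := by
        rw [Nat.pos_iff_ne_zero, Ne, ZMod.val_eq_zero]
        exact hb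
      have h3 := ZMod.val_lt (b : ZMod (2 * v))
      refine ⟨(b : ZMod (2 * v)).val - 1, by rw [Finset.mem_range]; omega, ?_⟩
      apply Subtype.ext
      simp only
      rw [show (b : ZMod (2 * v)).val - 1 + 1 = (b : ZMod (2 * v)).val by omega,
        ZMod.natCast_val, ZMod.cast_id]
    · intro a ha
      rw [Finset.mem_range] at ha
      simp only
      rw [hφ, ZMod.val_natCast_of_lt (by omega)]
  rw [h1]
  have h2 : 2 * v - 1 + 1 = 2 * v := by omega
  have h3 : IsPrimitiveRoot ζ (2 * v - 1 + 1) := by rw [h2]; exact hζ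
  rw [h3.prod_one_sub_pow_eq_order]
  have : ((2 * v - 1 : ℕ) : K) + 1 = ((2 * v - 1 + 1 : ℕ) : K) := by push_cast; ring
  rw [this, h2]

lemma prod_nz {M : Type*} [CommMonoid M] (f : ZMod (2 * v) → M) :
    f 0 * ∏ k : NZ (2 * v), f k = ∏ k, f k := by
  classical
  have h1 : ∏ a : NZ (2 * v), f a = ∏ a ∈ univ.filter (fun a : ZMod (2 * v) => a ≠ 0), f a := by
    rw [Finset.prod_subtype (univ.filter (fun a : ZMod (2 * v) => a ≠ 0)) (p := fun a => a ≠ 0)]
    intro x; simp
  have h2 : univ.filter (fun a : ZMod (2 * v) => a ≠ 0) = univ.erase 0 := by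
    ext x; simp
  rw [h1, h2, Finset.mul_prod_erase _ _ (Finset.mem_univ _)]

/-- product over nonzero elements, folded -/
lemma prod_nz_fold {M : Type*} [CommMonoid M] (hv : 0 < v) (f : ZMod (2 * v) → M) :
    ∏ k : NZ (2 * v), f k = f (v : ℕ) * ∏ k : Fin (v - 1), (f (cp v k) * f (-cp v k)) := by
  classical
  have h1 := prod_nz (fun k : ZMod (2 * v) => if k = 0 then 1 else f k)
  have h2 := fold_even_prod hv (fun k : ZMod (2 * v) => if k = 0 then 1 else f k)
  simp only [if_true, one_mul] at h1 h2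
  have e1 : ∀ k : NZ (2 * v), (if (k : ZMod (2 * v)) = 0 then 1 else f k) = f k := fun k => by
    rw [if_neg k.2]
  have e2 : ((v : ℕ) : ZMod (2 * v)) ≠ 0 := by
    rw [Ne, ZMod.natCast_eq_zero_iff]
    intro h
    have := Nat.le_of_dvd hv h
    omega
  have e3 : ∀ k : Fin (v - 1), cp v k ≠ 0 := by
    intro k
    rw [cp, Ne, ZMod.natCast_eq_zero_iff]
    intro h
    have := Nat.le_of_dvd (by omega) h
    have := k.2
    omega
  rw [Finset.prod_congr rfl fun k _ => e1 k] at h1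
  rw [h1]
  convert h2 using 2
  · rw [if_neg e2]
  · refine Finset.prod_congr rfl fun k _ => ?_
    have e4 : (((k : ℕ) + 1 : ℕ) : ZMod (2 * v)) = cp v k := rfl
    rw [e4, if_neg (e3 k), if_neg (neg_ne_zero.mpr (e3 k))]

include hp hg hψ in
lemma det_M_cast (K : Type*) [Field K] :
    (Matrix.of fun a b : Fin (v - 1) => ((ms v g ψ (cp v a - cp v b) : ℤ) : K) -
      ((ms v g ψ (cp v a + cp v b) : ℤ) : K)).det = 2 ^ (v - 1) * ((Nm v g ψ).det : K) := by
  have e1 := congrArg Matrix.det (two_Nm hp hg ψ hψ)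
  rw [Matrix.det_smul, Fintype.card_fin] at e1
  have e2 := RingHom.map_det (Int.castRingHom K) (Matrix.of fun a b : Fin (v - 1) =>
    ms v g ψ (cp v a - cp v b) - ms v g ψ (cp v a + cp v b))
  rw [e1, eq_intCast, Int.cast_mul, Int.cast_pow, Int.cast_ofNat] at e2
  rw [e2]
  congr 1
  ext a b
  simp

/-- the sign character -/
def eps (v : ℕ) (u : ZMod (2 * v)) : ℤ := (-1) ^ u.val

include hp hg hψ in
theorem main_D (s : ZMod (2 * v)) :
    2 * (Matrix.of fun a b : NZ (2 * v) => cs v g ψ (a - b - s)).det =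
      4 ^ (v - 1) * (Nm v g ψ).det ^ 2 * ∑ u, eps v u * cs v g ψ (u - s) := by
  have hv := v_pos hp
  -- a primitive character with complex values
  set ζ : ℂ := Complex.exp (2 * Real.pi * Complex.I / (2 * v : ℕ)) with hζdef
  have hζ : IsPrimitiveRoot ζ (2 * v) := Complex.isPrimitiveRoot_exp _ (by omega)
  set φ : AddChar (ZMod (2 * v)) ℂ :=
    AddChar.zmodChar (2 * v) ((IsPrimitiveRoot.iff_def ζ (2 * v)).mp hζ).left with hφdef
  have hφ : ∀ u, φ u = ζ ^ u.val := fun u => AddChar.zmodChar_apply _ u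
  have hprim : φ.IsPrimitive := AddChar.zmodChar_primitive_of_primitive_root _ hζ
  have hnC : ((2 * v : ℕ) : ℂ) ≠ 0 := by
    have : 2 * v ≠ 0 := by omega
    exact_mod_cast this
  have hζv : ζ ^ v = -1 := by
    have h1 : (ζ ^ v - 1) * (ζ ^ v + 1) = 0 := by
      have h2 : ζ ^ (2 * v) = 1 := hζ.pow_eq_one
      rw [mul_comm, pow_mul] at h2
      linear_combination h2
    rcases mul_eq_zero.mp h1 with h | h
    · exfalso
      have := hζ.dvd_of_pow_eq_one _ (sub_eq_zero.mp h)
      have := Nat.le_of_dvd hv this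
      omega
    · exact eq_neg_of_add_eq_zero_left h
  have hφv : φ ((v : ℕ) : ZMod (2 * v)) = -1 := by
    rw [hφ, ZMod.val_natCast_of_lt (by omega), hζv]
  have hφuv : ∀ u : ZMod (2 * v), φ (u * (v : ℕ)) = (eps v u : ℤ) := by
    intro u
    have h1 : u * ((v : ℕ) : ZMod (2 * v)) = u.val • ((v : ℕ) : ZMod (2 * v)) := by
      rw [nsmul_eq_mul, ZMod.natCast_val, ZMod.cast_id]
    rw [h1, AddChar.map_nsmul_eq_pow, hφv, eps]
    push_cast
    rfl
  -- the shifted sequence
  set C : ZMod (2 * v) → ℂ := fun u => ((cs v g ψ (u - s) : ℤ) : ℂ) with hC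
  have hCsum : ∑ u, C u = 0 := by
    have h1 : ∑ u, C u = ((∑ u, cs v g ψ u : ℤ) : ℂ) := by
      push_cast
      exact Fintype.sum_equiv (Equiv.subRight s) _ _ fun x => rfl
    rw [h1, cs_sum hp hg ψ hψ, Int.cast_zero]
  have h1 := det_minor φ hprim hnC C hCsum
  have h2 : (Matrix.of fun a b : NZ (2 * v) => C (a - b)).det =
      (((Matrix.of fun a b : NZ (2 * v) => cs v g ψ (a - b - s)).det : ℤ) : ℂ) := by
    have := RingHom.map_det (Int.castRingHom ℂ)
      (Matrix.of fun a b : NZ (2 * v) => cs v g ψ (a - b - s))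
    rw [eq_intCast] at this
    rw [this]
    rfl
  rw [h2] at h1
  have h3 : ∀ k : ZMod (2 * v), lam φ C k =
      φ (s * k) * ((1 - φ k) * lam φ (fun u => ((ms v g ψ u : ℤ) : ℂ)) k) := by
    intro k
    rw [← lam_ms hp hg ψ hψ, lam, lam, Finset.mul_sum]
    refine Fintype.sum_equiv (Equiv.subRight s) _ _ fun x => ?_
    simp only [hC, Equiv.subRight_apply]
    have : x * k = s * k + (x - s) * k := by ring
    rw [this, AddChar.map_add_eq_mul]
    ring
  rw [Finset.prod_congr rfl fun (k : NZ (2 * v)) _ => h3 k, Finset.prod_mul_distrib,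
    Finset.prod_mul_distrib, prod_one_sub hv φ hζ hφ] at h1
  -- the product of the characters
  have h4 : ∏ k : NZ (2 * v), φ (s * k) = (eps v s : ℤ) := by
    rw [prod_nz_fold hv (fun k => φ (s * k)), hφuv]
    have : ∀ k : Fin (v - 1), φ (s * cp v k) * φ (s * -cp v k) = 1 := by
      intro k
      rw [← AddChar.map_add_eq_mul]
      simp
    rw [Finset.prod_congr rfl fun k _ => this k]
    simp
  -- the product of the transforms of `m`
  have hmneg : ∀ k, lam φ (fun u => ((ms v g ψ u : ℤ) : ℂ)) (-k) =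
      lam φ (fun u => ((ms v g ψ u : ℤ) : ℂ)) k := by
    intro k
    rw [lam, lam]
    refine Fintype.sum_equiv (Equiv.neg _) _ _ fun u => ?_
    simp only [Equiv.neg_apply]
    rw [ms_neg hp hg ψ hψ, neg_mul, mul_neg]
  have h5 := det_odd hv φ hprim hnC (fun u => ((ms v g ψ u : ℤ) : ℂ))
    (fun u => by rw [ms_neg hp hg ψ hψ])
  have h6 := det_M_cast hp hg ψ hψ ℂ
  rw [h6] at h5
  have h7 : ∏ k : NZ (2 * v), lam φ (fun u => ((ms v g ψ u : ℤ) : ℂ)) k =
      lam φ (fun u => ((ms v g ψ u : ℤ) : ℂ)) (v : ℕ) *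
        (2 ^ (v - 1) * ((Nm v g ψ).det : ℂ)) ^ 2 := by
    rw [prod_nz_fold hv]
    congr 1
    rw [h5, ← Finset.prod_pow]
    refine Finset.prod_congr rfl fun k _ => ?_
    rw [hmneg]
    ring
  -- the middle transform
  have h8 : 2 * lam φ (fun u => ((ms v g ψ u : ℤ) : ℂ)) (v : ℕ) =
      ((∑ u, eps v u * cs v g ψ u : ℤ) : ℂ) := by
    have e1 := lam_ms hp hg ψ hψ φ ((v : ℕ) : ZMod (2 * v))
    rw [hφv] at e1
    have e2 : lam φ (fun u => ((cs v g ψ u : ℤ) : ℂ)) ((v : ℕ) : ZMod (2 * v)) =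
        ((∑ u, eps v u * cs v g ψ u : ℤ) : ℂ) := by
      rw [lam]
      push_cast
      refine Finset.sum_congr rfl fun u _ => ?_
      rw [hφuv]
      ring
    rw [← e2, e1]
    ring
  have h9 : (eps v s : ℤ) * ∑ u, eps v u * cs v g ψ u = ∑ u, eps v u * cs v g ψ (u - s) := by
    have e1 : ∀ u w : ZMod (2 * v), eps v (u + w) = eps v u * eps v w := by
      intro u w
      have e2 : ((eps v (u + w) : ℤ) : ℂ) = ((eps v u * eps v w : ℤ) : ℂ) := by
        push_cast
        rw [← hφuv, ← hφuv, ← hφuv, ← AddChar.map_add_eq_mul]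
        congr 1
        ring
      exact_mod_cast e2
    rw [Finset.mul_sum]
    symm
    refine Fintype.sum_equiv (Equiv.subRight s) _ _ fun x => ?_
    simp only [Equiv.subRight_apply]
    rw [← mul_assoc, ← e1]
    congr 2
    ring
  rw [h4, h7] at h1
  have h10 : (2 : ℂ) * (((Matrix.of fun a b : NZ (2 * v) => cs v g ψ (a - b - s)).det : ℤ) : ℂ) =
      ((4 ^ (v - 1) * (Nm v g ψ).det ^ 2 * ∑ u, eps v u * cs v g ψ (u - s) : ℤ) : ℂ) := by
    apply mul_left_cancel₀ hnC
    calc ((2 * v : ℕ) : ℂ) * (2 * (((Matrix.of fun a b : NZ (2 * v) =>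
          cs v g ψ (a - b - s)).det : ℤ) : ℂ))
        = 2 * (((2 * v : ℕ) : ℂ) * (((Matrix.of fun a b : NZ (2 * v) =>
          cs v g ψ (a - b - s)).det : ℤ) : ℂ)) := by ring
      _ = ((2 * v : ℕ) : ℂ) * ((eps v s : ℤ) * (2 * lam φ (fun u => ((ms v g ψ u : ℤ) : ℂ)) (v : ℕ))
          * (2 ^ (v - 1) * ((Nm v g ψ).det : ℂ)) ^ 2) := by rw [h1]; ring
      _ = _ := by
          rw [h8, ← h9]
          push_cast
          have : (4 : ℂ) ^ (v - 1) = 2 ^ (v - 1) * 2 ^ (v - 1) := by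
            rw [← mul_pow]; norm_num
          rw [this]
          ring
  exact_mod_cast h10

end

end Q263.LD
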