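import Mathlib
import Pool.Agent.Q263.LD.NR

/-! The Legendre symbol of the square root. -/

set_option autoImplicit false

open Finset Matrix

namespace Q263.LD

section

variable {p : ℕ} [Fact p.Prime] {v : ℕ} (hp : p = 4 * v + 1) {g : ZMod p}
  (hg : IsPrimitiveRoot g (p - 1)) [NeZero (2 * v)] (ψ : AddChar (ZMod (2 * v)) (ZMod p))
  (hψ : ∀ u : ZMod (2 * v), ψ u = (g ^ 2) ^ u.val)

include hp hg hψ in
lemma psi_prim : ψ.IsPrimitive := by
  have h1 := sq_prim hp hg
  have h2 : ψ = AddChar.zmodChar (2 * v) ((IsPrimitiveRoot.iff_def (g ^ 2) (2 * v)).mp h1).left := by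
    ext u
    rw [hψ, AddChar.zmodChar_apply]
  rw [h2]
  exact AddChar.zmodChar_primitive_of_primitive_root _ h1

include hp hg hψ in
/-- the Fourier transform of `c` modulo `p` -/
lemma lam_cs (k : ℕ) (hk1 : 1 ≤ k) (hk2 : k < 2 * v) :
    lam ψ (fun u => ((cs v g ψ u : ℤ) : ZMod p)) (k : ZMod (2 * v)) =
      ((2 * v : ℕ) : ZMod p) * (Nat.choose (2 * v) k : ZMod p) * g ^ k := by
  have h1 : ∀ u : ZMod (2 * v), ((cs v g ψ u : ℤ) : ZMod p) * ψ (u * (k : ZMod (2 * v))) =
      ∑ i ∈ range (2 * v + 1), g ^ (2 * v - i) * (Nat.choose (2 * v) i : ZMod p) *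
        ψ (u * ((i + k : ℕ) : ZMod (2 * v))) := by
    intro u
    rw [cs, chi_pow hp, add_pow, Finset.sum_mul]
    refine Finset.sum_congr rfl fun i _ => ?_
    have e1 : ψ u ^ i = ψ (u * (i : ZMod (2 * v))) := by
      rw [← AddChar.map_nsmul_eq_pow, nsmul_eq_mul, mul_comm (i : ZMod (2 * v)) u]
    rw [e1, Nat.cast_add, mul_add, AddChar.map_add_eq_mul]
    ring
  rw [lam, Finset.sum_congr rfl fun u _ => h1 u, Finset.sum_comm]
  have h2 : ∀ i ∈ range (2 * v + 1), ∑ u : ZMod (2 * v), g ^ (2 * v - i) *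
      (Nat.choose (2 * v) i : ZMod p) * ψ (u * ((i + k : ℕ) : ZMod (2 * v))) =
      if i = 2 * v - k then g ^ k * (Nat.choose (2 * v) k : ZMod p) * ((2 * v : ℕ) : ZMod p)
        else 0 := by
    intro i hi
    rw [Finset.mem_range] at hi
    rw [← Finset.mul_sum, AddChar.sum_mulShift _ (psi_prim hp hg ψ hψ), ZMod.card]
    by_cases hik : i = 2 * v - k
    · have e1 : ((i + k : ℕ) : ZMod (2 * v)) = 0 := by
        rw [hik, Nat.sub_add_cancel hk2.le]
        exact ZMod.natCast_self _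
      rw [if_pos e1, if_pos hik, hik, Nat.choose_symm hk2.le, Nat.sub_sub_self hk2.le]
    · have e1 : ((i + k : ℕ) : ZMod (2 * v)) ≠ 0 := by
        rw [Ne, ZMod.natCast_eq_zero_iff]
        intro hd
        obtain ⟨c, hc⟩ := hd
        rcases c with _ | _ | c
        · omega
        · omega
        · have : 2 * v * (c + 2) = 2 * v * c + 4 * v := by ring
          have h5 : i + k = 2 * v * c + 4 * v := by rw [hc]; ring
          omega
      rw [if_neg e1, if_neg hik, Nat.cast_zero, mul_zero]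
  rw [Finset.sum_congr rfl h2, Finset.sum_ite_eq', if_pos (by rw [Finset.mem_range]; omega)]
  ring

/-! ### Factorials and binomial coefficients -/

include hp in
lemma nat_ne_zero {k : ℕ} (h0 : 0 < k) (hk : k < p) : (k : ZMod p) ≠ 0 := by
  rw [Ne, ZMod.natCast_eq_zero_iff]
  intro h
  have := Nat.le_of_dvd h0 h
  omega

lemma fact_ne_zero {k : ℕ} (hk : k < p) : ((k.factorial : ℕ) : ZMod p) ≠ 0 := by
  rw [Ne, ZMod.natCast_eq_zero_iff, (Fact.out : p.Prime).dvd_factorial]
  omega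

/-- `χ(k!)` -/
def cf (p : ℕ) [Fact p.Prime] (k : ℕ) : ℤ := quadraticChar (ZMod p) ((k.factorial : ℕ) : ZMod p)

lemma cf_sq {k : ℕ} (hk : k < p) : cf p k * cf p k = 1 := by
  have := quadraticChar_sq_one (fact_ne_zero hk)
  rw [pow_two] at this
  exact this

include hp in
lemma chi_two : quadraticChar (ZMod p) 2 = (-1) ^ v := by
  have h2 : ringChar (ZMod p) ≠ 2 := by rw [ZMod.ringChar_zmod_n]; omega
  rw [quadraticChar_two h2, ZMod.card, ZMod.χ₈_nat_eq_if_mod_eight]
  rcases Nat.even_or_odd v with h | h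
  · obtain ⟨w, hw⟩ := h
    have h8 : p % 8 = 1 := by omega
    have hE : p % 2 ≠ 0 := by omega
    rw [if_neg hE, if_pos (Or.inl h8), Even.neg_one_pow ⟨w, hw⟩]
  · obtain ⟨w, hw⟩ := h
    have h8 : p % 8 = 5 := by omega
    have hE : p % 2 ≠ 0 := by omega
    rw [if_neg hE, if_neg (by omega), Odd.neg_one_pow ⟨w, hw⟩]

include hp in
lemma fact_sq : (((2 * v).factorial : ℕ) : ZMod p) ^ 2 = -1 := by
  have hw := ZMod.wilsons_lemma p
  have h1 : ∀ j, j ≤ 2 * v → (((4 * v).factorial : ℕ) : ZMod p) =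
      (((4 * v - j).factorial : ℕ) : ZMod p) * ((-1) ^ j * ((j.factorial : ℕ) : ZMod p)) := by
    intro j
    induction j with
    | zero => intro _; simp
    | succ j ih =>
      intro hj
      rw [ih (by omega)]
      have e1 : 4 * v - j = (4 * v - (j + 1)) + 1 := by omega
      have e2 : (((4 * v - (j + 1)) + 1 : ℕ) : ZMod p) = -((j + 1 : ℕ) : ZMod p) := by
        rw [eq_neg_iff_add_eq_zero, ← Nat.cast_add,
          show 4 * v - (j + 1) + 1 + (j + 1) = p by omega]
        exact ZMod.natCast_self p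
      rw [e1, Nat.factorial_succ, Nat.factorial_succ, Nat.cast_mul, Nat.cast_mul, e2, pow_succ]
      ring
  have h2 := h1 (2 * v) le_rfl
  rw [show 4 * v - 2 * v = 2 * v by omega, Even.neg_one_pow ⟨v, by ring⟩, one_mul] at h2
  rw [show p - 1 = 4 * v by omega] at hw
  rw [pow_two, ← h2, hw]

include hp in
lemma cf_half : cf p (2 * v) = (-1) ^ v := by
  apply int_inj (p := p) (by omega)
  · exact quadraticChar_dichotomy (fact_ne_zero (by omega))
  · rcases Nat.even_or_odd v with h | h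
    · left; exact Even.neg_one_pow h
    · right; exact Odd.neg_one_pow h
  · rw [cf, chi_pow hp, pow_mul, fact_sq hp]
    push_cast
    rfl

include hp in
lemma prod_cf (w : ℕ) (hw : 2 * w < p) :
    ∏ k ∈ range (2 * w + 1), cf p k = (quadraticChar (ZMod p) 2) ^ w * cf p w := by
  induction w with
  | zero => simp [cf]
  | succ w ih =>
    have h1 : 2 * (w + 1) + 1 = 2 * w + 1 + 1 + 1 := by ring
    rw [h1, Finset.prod_range_succ, Finset.prod_range_succ, ih (by omega)]
    have h2 : cf p (2 * w + 1 + 1) =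
        quadraticChar (ZMod p) 2 * quadraticChar (ZMod p) ((w + 1 : ℕ) : ZMod p) *
          cf p (2 * w + 1) := by
      rw [cf, Nat.factorial_succ, Nat.cast_mul, map_mul, ← cf, ← map_mul]
      congr 2
      push_cast
      ring
    have h3 : cf p (w + 1) = quadraticChar (ZMod p) ((w + 1 : ℕ) : ZMod p) * cf p w := by
      rw [cf, Nat.factorial_succ, Nat.cast_mul, map_mul]
      rfl
    have h4 : cf p (2 * w + 1) * cf p (2 * w + 1) = 1 := cf_sq (by omega)
    rw [h2, h3, pow_succ]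
    linear_combination (quadraticChar (ZMod p) 2) ^ w * cf p w * quadraticChar (ZMod p) 2 *
      quadraticChar (ZMod p) ((w + 1 : ℕ) : ZMod p) * h4

include hp in
lemma prod_choose : ∏ k ∈ range v, quadraticChar (ZMod p) (Nat.choose (2 * v) k : ZMod p) = 1 := by
  have h1 : ∀ k ∈ range v, quadraticChar (ZMod p) (Nat.choose (2 * v) k : ZMod p) =
      cf p (2 * v) * (cf p k * cf p (2 * v - k)) := by
    intro k hk
    rw [Finset.mem_range] at hk
    have h2 := Nat.choose_mul_factorial_mul_factorial (show k ≤ 2 * v by omega)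
    have h3 : cf p (2 * v) = quadraticChar (ZMod p) (Nat.choose (2 * v) k : ZMod p) * cf p k *
        cf p (2 * v - k) := by
      rw [cf, ← h2, Nat.cast_mul, Nat.cast_mul, map_mul, map_mul]
      rfl
    have h4 := cf_sq (p := p) (show k < p by omega)
    have h5 := cf_sq (p := p) (show 2 * v - k < p by omega)
    rw [h3]
    linear_combination (-quadraticChar (ZMod p) (Nat.choose (2 * v) k : ZMod p) *
      (cf p (2 * v - k) * cf p (2 * v - k))) * h4 -
      quadraticChar (ZMod p) (Nat.choose (2 * v) k : ZMod p) * h5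
  rw [Finset.prod_congr rfl h1, Finset.prod_mul_distrib, Finset.prod_const, Finset.card_range]
  have h2 := prod_cf hp v (by omega)
  have h3 : ∏ k ∈ range (2 * v + 1), cf p k =
      (∏ k ∈ range v, (cf p k * cf p (2 * v - k))) * cf p v := by
    have e1 : 2 * v + 1 = v + (v + 1) := by ring
    rw [e1, Finset.prod_range_add, Finset.prod_range_succ', Finset.prod_mul_distrib, add_zero,
      ← mul_assoc]
    congr 2
    rw [← Finset.prod_range_reflect]
    refine Finset.prod_congr rfl fun k hk => ?_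
    rw [Finset.mem_range] at hk
    congr 1
    omega
  rw [h3] at h2
  have h4 : cf p v * cf p v = 1 := cf_sq (by omega)
  have h5 : ∏ k ∈ range v, (cf p k * cf p (2 * v - k)) = (quadraticChar (ZMod p) 2) ^ v := by
    have : (∏ k ∈ range v, (cf p k * cf p (2 * v - k))) * (cf p v * cf p v) =
        (quadraticChar (ZMod p) 2) ^ v * (cf p v * cf p v) := by
      rw [← mul_assoc, h2]; ring
    rwa [h4, mul_one, mul_one] at this
  rw [h5, chi_two hp, cf_half hp, ← mul_pow, ← pow_add]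
  rw [Even.neg_one_pow ⟨v, rfl⟩, one_pow]

include hp hg hψ in
lemma psi_v : ψ ((v : ℕ) : ZMod (2 * v)) = -1 := by
  have hv := v_pos hp
  rw [hψ, ZMod.val_natCast_of_lt (by omega), ← pow_mul, g_half hp hg]

/-- the exponent `v (v - 1) / 2` -/
def tri (v : ℕ) : ℕ := ∑ k : Fin (v - 1), ((k : ℕ) + 1)

include hp hg hψ in
/-- `χ` of `∏ (1 - g^{2k})` -/
lemma chi_P : quadraticChar (ZMod p) (∏ k : Fin (v - 1), (1 - ψ (cp v k))) = (-1) ^ tri v := by
  have hv := v_pos hp
  set P := ∏ k : Fin (v - 1), (1 - ψ (cp v k)) with hP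
  set Om := ∏ k : Fin (v - 1), ψ (cp v k) with hOm
  have h1 := prod_one_sub hv ψ (sq_prim hp hg) hψ
  rw [prod_nz_fold hv (fun k => 1 - ψ k), psi_v hp hg ψ hψ] at h1
  have h2 : ∀ k : Fin (v - 1), ψ (cp v k) * ((1 - ψ (cp v k)) * (1 - ψ (-cp v k))) =
      -1 * (1 - ψ (cp v k)) ^ 2 := by
    intro k
    have h3 : ψ (cp v k) * ψ (-cp v k) = 1 := by rw [← AddChar.map_add_eq_mul]; simp
    linear_combination -(1 - ψ (cp v k)) * h3
  have h3 : Om * ∏ k : Fin (v - 1), ((1 - ψ (cp v k)) * (1 - ψ (-cp v k))) =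
      (-1) ^ (v - 1) * P ^ 2 := by
    rw [hOm, ← Finset.prod_mul_distrib, Finset.prod_congr rfl fun k _ => h2 k,
      Finset.prod_mul_distrib, Finset.prod_pow, Finset.prod_const, Finset.card_univ,
      Fintype.card_fin]
  have h4 : (4 : ZMod p) * ((-1) ^ (v - 1) * P ^ 2) = -Om := by
    have h5 : ((2 * v : ℕ) : ZMod p) * 2 = -1 := by
      rw [eq_neg_iff_add_eq_zero]
      have : ((2 * v * 2 + 1 : ℕ) : ZMod p) = 0 := by
        rw [show 2 * v * 2 + 1 = p by omega]; exact ZMod.natCast_self p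
      push_cast at this ⊢
      exact this
    rw [← h3]
    linear_combination 2 * Om * h1 + Om * h5
  have h5 : Om ^ v = (-1) ^ tri v := by
    rw [hOm, ← Finset.prod_pow]
    have h6 : ∀ k : Fin (v - 1), ψ (cp v k) ^ v = (-1) ^ ((k : ℕ) + 1) := by
      intro k
      have hk := k.2
      rw [hψ, cp, ZMod.val_natCast_of_lt (by omega), ← pow_mul, ← pow_mul,
        show 2 * (((k : ℕ) + 1) * v) = 2 * v * ((k : ℕ) + 1) by ring, pow_mul, g_half hp hg]
    rw [Finset.prod_congr rfl fun k _ => h6 k, Finset.prod_pow_eq_pow_sum]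
    rfl
  have h6 : P ^ (2 * v) = (-1) ^ tri v := by
    have h7 := congrArg (fun x => x ^ v) h4
    simp only [mul_pow] at h7
    have h8 : (4 : ZMod p) ^ v = (-1) ^ v := by
      have h9 : ((quadraticChar (ZMod p) 2 : ℤ) : ZMod p) = 2 ^ (2 * v) := chi_pow hp 2
      rw [chi_two hp] at h9
      rw [show (4 : ZMod p) = 2 ^ 2 by norm_num, ← pow_mul, ← h9]
      push_cast
      rfl
    have h10 : (((-1 : ZMod p)) ^ (v - 1)) ^ v = 1 := by
      rw [← pow_mul]
      apply Even.neg_one_pow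
      obtain ⟨w, rfl⟩ : ∃ w, v = w + 1 := ⟨v - 1, by omega⟩
      rw [add_tsub_cancel_right]
      exact Nat.even_mul_succ_self w
    rw [h8, h10, one_mul, ← pow_mul, neg_pow Om, h5] at h7
    have h11 : ((-1 : ZMod p)) ^ v ≠ 0 := pow_ne_zero _ (neg_ne_zero.mpr one_ne_zero)
    exact mul_left_cancel₀ h11 h7
  have hP0 : P ≠ 0 := by
    intro h0
    rw [h0, zero_pow (by omega)] at h6
    exact pow_ne_zero _ (neg_ne_zero.mpr one_ne_zero) h6.symm
  apply int_inj (p := p) (by omega) (quadraticChar_dichotomy hP0)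
  · rcases Nat.even_or_odd (tri v) with h | h
    · left; exact Even.neg_one_pow h
    · right; exact Odd.neg_one_pow h
  · rw [chi_pow hp, h6]
    push_cast
    rfl

include hp hg hψ in
/-- the determinant of `Nm` is a quadratic residue -/
theorem chi_Nm : quadraticChar (ZMod p) (((Nm v g ψ).det : ℤ) : ZMod p) = 1 := by
  have hv := v_pos hp
  have hn : ((2 * v : ℕ) : ZMod p) ≠ 0 := nat_ne_zero hp (by omega) (by omega)
  have h1 := det_odd hv ψ (psi_prim hp hg ψ hψ) hn (fun u => ((ms v g ψ u : ℤ) : ZMod p))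
    (fun u => by rw [ms_neg hp hg ψ hψ])
  rw [det_M_cast hp hg ψ hψ] at h1
  have h2 : (2 ^ (v - 1) * (((Nm v g ψ).det : ℤ) : ZMod p)) *
      ∏ k : Fin (v - 1), (1 - ψ (cp v k)) =
      ∏ k : Fin (v - 1), (((2 * v : ℕ) : ZMod p) * (Nat.choose (2 * v) ((k : ℕ) + 1) : ZMod p) *
        g ^ ((k : ℕ) + 1)) := by
    rw [h1, ← Finset.prod_mul_distrib]
    refine Finset.prod_congr rfl fun k _ => ?_
    rw [mul_comm, ← lam_ms hp hg ψ hψ]
    have hk := k.2
    exact lam_cs hp hg ψ hψ ((k : ℕ) + 1) (by omega) (by omega)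
  have h3 := congrArg (quadraticChar (ZMod p)) h2
  rw [map_mul, map_mul, map_pow, chi_P hp hg ψ hψ, map_prod] at h3
  have h4 : ∀ k : Fin (v - 1), quadraticChar (ZMod p) (((2 * v : ℕ) : ZMod p) *
      (Nat.choose (2 * v) ((k : ℕ) + 1) : ZMod p) * g ^ ((k : ℕ) + 1)) =
      quadraticChar (ZMod p) 2 * quadraticChar (ZMod p) (Nat.choose (2 * v) ((k : ℕ) + 1) : ZMod p) *
        (-1) ^ ((k : ℕ) + 1) := by
    intro k
    rw [map_mul, map_mul, map_pow, chi_g hp hg]
    congr 2
    have h5 : quadraticChar (ZMod p) 2 * quadraticChar (ZMod p) ((2 * v : ℕ) : ZMod p) = 1 := by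
      rw [← map_mul]
      have : (2 : ZMod p) * ((2 * v : ℕ) : ZMod p) = -1 := by
        rw [eq_neg_iff_add_eq_zero]
        have : ((2 * (2 * v) + 1 : ℕ) : ZMod p) = 0 := by
          rw [show 2 * (2 * v) + 1 = p by omega]; exact ZMod.natCast_self p
        push_cast at this ⊢
        exact this
      rw [this, chi_neg_one hp]
    have h6 : quadraticChar (ZMod p) 2 * quadraticChar (ZMod p) 2 = 1 := by
      rw [chi_two hp, ← pow_add]
      exact Even.neg_one_pow ⟨v, rfl⟩
    linear_combination quadraticChar (ZMod p) 2 * h5 -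
      quadraticChar (ZMod p) ((2 * v : ℕ) : ZMod p) * h6
  rw [Finset.prod_congr rfl fun k _ => h4 k, Finset.prod_mul_distrib, Finset.prod_mul_distrib,
    Finset.prod_const, Finset.card_univ, Fintype.card_fin, Finset.prod_pow_eq_pow_sum] at h3
  have h5 : ∏ k : Fin (v - 1), quadraticChar (ZMod p)
      (Nat.choose (2 * v) ((k : ℕ) + 1) : ZMod p) = 1 := by
    have h6 := prod_choose hp
    obtain ⟨w, rfl⟩ : ∃ w, v = w + 1 := ⟨v - 1, by omega⟩
    rw [Finset.prod_range_succ', Nat.choose_zero_right, Nat.cast_one, map_one, mul_one,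
      Finset.prod_range] at h6
    exact h6
  rw [h5, mul_one] at h3
  have h6 : ∀ n : ℕ, ((-1 : ℤ) ^ n) * ((-1 : ℤ) ^ n) = 1 := fun n => by
    rw [← pow_add]
    exact Even.neg_one_pow ⟨n, rfl⟩
  have h7 : (quadraticChar (ZMod p) 2) ^ (v - 1) * (quadraticChar (ZMod p) 2) ^ (v - 1) = 1 := by
    rw [chi_two hp, ← pow_mul]
    exact h6 _
  have h8 := h6 (tri v)
  have h9 : (quadraticChar (ZMod p) 2) ^ (v - 1) *
      quadraticChar (ZMod p) (((Nm v g ψ).det : ℤ) : ZMod p) * (-1) ^ tri v =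
      (quadraticChar (ZMod p) 2) ^ (v - 1) * (-1) ^ tri v := h3
  have h10 : (quadraticChar (ZMod p) 2) ^ (v - 1) * ((quadraticChar (ZMod p) 2) ^ (v - 1) *
      quadraticChar (ZMod p) (((Nm v g ψ).det : ℤ) : ZMod p) * (-1) ^ tri v) * (-1) ^ tri v =
      (quadraticChar (ZMod p) 2) ^ (v - 1) * ((quadraticChar (ZMod p) 2) ^ (v - 1) *
      (-1) ^ tri v) * (-1) ^ tri v := by rw [h9]
  have h11 : (quadraticChar (ZMod p) 2) ^ (v - 1) * ((quadraticChar (ZMod p) 2) ^ (v - 1) *
      quadraticChar (ZMod p) (((Nm v g ψ).det : ℤ) : ZMod p) * (-1) ^ tri v) * (-1) ^ tri v =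
      ((quadraticChar (ZMod p) 2) ^ (v - 1) * (quadraticChar (ZMod p) 2) ^ (v - 1)) *
      ((-1) ^ tri v * (-1) ^ tri v) *
      quadraticChar (ZMod p) (((Nm v g ψ).det : ℤ) : ZMod p) := by ring
  have h12 : (quadraticChar (ZMod p) 2) ^ (v - 1) * ((quadraticChar (ZMod p) 2) ^ (v - 1) *
      (-1) ^ tri v) * (-1) ^ tri v =
      ((quadraticChar (ZMod p) 2) ^ (v - 1) * (quadraticChar (ZMod p) 2) ^ (v - 1)) *
      ((-1) ^ tri v * (-1) ^ tri v) := by ring
  rw [h11, h12, h7, h8, one_mul, one_mul] at h10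
  exact h10

end

end Q263.LD
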